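import Pool.Agent.Lib.H47G.Final

/-!
# Asymptotically optimal linking of a small and a large vertex set: definitions

Board of helper61 (problem MP_dd17fe_co).  Plan of the proof: see `Pool/Agent/Lib/H61L/Main.lean`.

`H47G.Conn G F` (cut form of connectedness), `H47G.nb G S W` (the neighbours of `W` in `S \ W`),
`H47G.Knit G S Z`, `H47G.Massed`, `H47G.massed_knit`, `H47G.menger` and `H47G.first_hit` are in
the library `Pool/Agent/Lib/H47G`.
-/

open Classical H47G

namespace H61L

/-- `G` is `r`-connected, in cut form. -/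
structure RConn {V : Type} [Fintype V] (G : SimpleGraph V) (r : ℕ) : Prop where
  card : r < Fintype.card V
  cut : ∀ Z U : Finset V, Z.card < r → U.Nonempty → Disjoint U Z →
    (∀ a ∈ U, ∀ b, b ∉ Z → b ∉ U → ¬ G.Adj a b) → ∀ b, b ∉ Z → b ∈ U

/-- The vertices of `T` which have a neighbour in `Q`. -/
noncomputable def adjT {V : Type} (G : SimpleGraph V) (T Q : Finset V) : Finset V :=
  T.filter fun t ↦ ∃ q ∈ Q, G.Adj q t

/-- The vertices of `T` which have at least `k` neighbours in `B`. -/
noncomputable def fat {V : Type} (G : SimpleGraph V) (T B : Finset V) (k : ℕ) : Finset V :=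
  T.filter fun t ↦ k ≤ (B.filter fun b ↦ G.Adj t b).card

/-- `T` is a smallest connected set which contains `S₂` and avoids `S₁`. -/
structure Setup {V : Type} [Fintype V] (G : SimpleGraph V) (r : ℕ) (S₁ S₂ T : Finset V) :
    Prop where
  conn : RConn G r
  d12 : Disjoint S₁ S₂
  sT : S₂ ⊆ T
  dT : Disjoint T S₁
  cT : Conn G T
  min : ∀ T' : Finset V, S₂ ⊆ T' → Disjoint T' S₁ → Conn G T' → T.card ≤ T'.card

/-- `B` is a nonempty connected subset of `Y` with at most `2k` neighbours in `Y`, and each
smaller nonempty subset of `B` has more than `2k` neighbours in `Y`. -/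
structure Region {V : Type} (G : SimpleGraph V) (Y B : Finset V) (k : ℕ) : Prop where
  sub : B ⊆ Y
  ne : B.Nonempty
  conn : Conn G B
  bd : (nb G Y B).card ≤ 2 * k
  min : ∀ W ⊆ B, W.Nonempty → W ≠ B → 2 * k < (nb G Y W).card

variable {V : Type}

theorem mem_adjT {G : SimpleGraph V} {T Q : Finset V} {t : V} :
    t ∈ adjT G T Q ↔ t ∈ T ∧ ∃ q ∈ Q, G.Adj q t := by
  simp [adjT]

theorem mem_fat {G : SimpleGraph V} {T B : Finset V} {k : ℕ} {t : V} :
    t ∈ fat G T B k ↔ t ∈ T ∧ k ≤ (B.filter fun b ↦ G.Adj t b).card := by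
  simp [fat]

variable [Fintype V] {G : SimpleGraph V} {r : ℕ}

theorem RConn.conn_compl (hG : RConn G r) {Z : Finset V} (hZ : Z.card < r) :
    Conn G (Finset.univ \ Z) := by
  intro A hA hn hne
  by_contra hno
  push Not at hno
  apply hne
  refine Finset.Subset.antisymm hA fun b hb ↦ ?_
  refine hG.cut Z A hZ hn ?_ ?_ b (by simpa using hb)
  · rw [Finset.disjoint_left]
    intro a ha haZ
    exact (Finset.mem_sdiff.1 (hA ha)).2 haZ
  · intro a ha c hc hcA
    exact hno a ha c (by simpa using hc) hcA

theorem RConn.degree (hG : RConn G r) (v : V) : r ≤ (nb G Finset.univ {v}).card := by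
  by_contra hlt
  push Not at hlt
  set Z := nb G Finset.univ {v} with hZ
  have h1 := hG.cut Z {v} hlt (Finset.singleton_nonempty v)
    nb_disjoint.symm (by
      intro a ha b hbZ hbW hab
      exact hbZ (mem_nb.2 ⟨Finset.mem_univ b, hbW, a, ha, hab⟩))
  have h2 : (Finset.univ : Finset V) ⊆ insert v Z := by
    intro x _
    by_cases hx : x ∈ Z
    · exact Finset.mem_insert_of_mem hx
    · exact Finset.mem_insert.2 (Or.inl (Finset.mem_singleton.1 (h1 x hx)))
  have h3 := (Finset.card_le_card h2).trans (Finset.card_insert_le _ _)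
  rw [Finset.card_univ] at h3
  have := hG.card
  omega

end H61L
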