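import Mathlib

/-! # Chunk S15 of board h61l: arithmetic. -/

namespace H61L

private theorem S15_key {i j C Q : ℕ} (hi : 2 ≤ i) (hij : i ≤ j) (h : 36 * i * j ≤ C ^ 2)
    (hQ1 : 7 * Q + 15 * i + 1 ≤ C) (hQ2 : C ≤ 7 * Q + 15 * i + 7)
    (hC1 : 338 * i ≤ 10 * C) :
    i * (j - 1) < (C + 4 - 10 * i - 4 * Q) * Q := by
  have hj : 1 ≤ j := le_trans (by omega) hij
  have hle : 10 * i + 4 * Q ≤ C + 4 := by omega
  obtain ⟨J, rfl⟩ : ∃ J, j = J + 1 := ⟨j - 1, by omega⟩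
  obtain ⟨D, hD⟩ : ∃ D, C + 4 = 10 * i + 4 * Q + D := ⟨C + 4 - (10 * i + 4 * Q), by omega⟩
  have e : C + 4 - 10 * i - 4 * Q = D := by omega
  rw [e, Nat.add_sub_cancel]
  zify at *
  obtain ⟨r, hr⟩ : ∃ r : ℤ, (C : ℤ) = 7 * Q + 15 * i + 1 + r := ⟨C - (7 * Q + 15 * i + 1), by ring⟩
  have hr0 : 0 ≤ r := by linarith
  have hr8 : r ≤ 6 := by linarith
  have hQ0 : (0 : ℤ) ≤ Q := by positivity
  have hDe : (D : ℤ) = C + 4 - 10 * i - 4 * Q := by linarith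
  rw [hDe]
  have hmain : 49 * (i : ℤ) * J < (3 * C - 10 * i + 32) * (C - 15 * i - 7) := by
    nlinarith [mul_nonneg (sub_nonneg.2 hC1) (by positivity : (0 : ℤ) ≤ C),
      mul_nonneg (sub_nonneg.2 hC1) (by positivity : (0 : ℤ) ≤ i),
      mul_nonneg (sub_nonneg.2 hi) (by positivity : (0 : ℤ) ≤ i)]
  have hsub : (3 * (C : ℤ) - 10 * i + 32) * (C - 15 * i - 7) ≤
      49 * ((C + 4 - 10 * i - 4 * Q) * Q) := by
    have e1 : 49 * (((C : ℤ) + 4 - 10 * i - 4 * Q) * Q) =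
        (3 * C - 10 * i + 32 + 4 * r) * (C - 15 * i - 1 - r) := by
      rw [hr]; ring
    rw [e1]
    have h1 : 0 ≤ 3 * (C : ℤ) - 10 * i + 32 := by linarith
    have h2 : 0 ≤ (C : ℤ) - 15 * i - 1 - r := by linarith
    calc (3 * (C : ℤ) - 10 * i + 32) * (C - 15 * i - 7)
        ≤ (3 * (C : ℤ) - 10 * i + 32) * (C - 15 * i - 1 - r) :=
          mul_le_mul_of_nonneg_left (by linarith) h1
      _ ≤ _ := mul_le_mul_of_nonneg_right (by linarith) h2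
  nlinarith

theorem arithmetic2 {i j C : ℕ} (hi : 2 ≤ i) (hij : i ≤ j) (h : 36 * i * j ≤ C ^ 2)
    (hC : C < j + 2 * i) :
    ∃ k μ : ℕ, 1 ≤ μ ∧ 2 * i + 1 + (j - 1) / μ ≤ k ∧ 7 * k + 1 + i ≤ C ∧
      i * μ + i + 4 * k ≤ C + 3 := by
  have hC6 : 6 * i ≤ C := by
    by_contra hh
    push Not at hh
    nlinarith
  have hC1 : 338 * i ≤ 10 * C := by
    by_contra hh
    push Not at hh
    obtain ⟨a, ha⟩ : ∃ a, C = 6 * i + a := ⟨C - 6 * i, by omega⟩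
    obtain ⟨b, hb⟩ : ∃ b, 338 * i = 10 * C + 1 + b := ⟨338 * i - (10 * C + 1), by omega⟩
    obtain ⟨c, hc⟩ : ∃ c, j + 2 * i = C + 1 + c := ⟨j + 2 * i - (C + 1), by omega⟩
    zify at *
    nlinarith [mul_nonneg (by positivity : (0 : ℤ) ≤ a) (by positivity : (0 : ℤ) ≤ b),
      mul_nonneg (by positivity : (0 : ℤ) ≤ i) (by positivity : (0 : ℤ) ≤ b),
      mul_nonneg (by positivity : (0 : ℤ) ≤ i) (by positivity : (0 : ℤ) ≤ c)]
  obtain ⟨Q, hQ⟩ : ∃ Q, Q = (C - 15 * i - 1) / 7 := ⟨_, rfl⟩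
  have hQ1 : 7 * Q + 15 * i + 1 ≤ C := by omega
  have hQ2 : C ≤ 7 * Q + 15 * i + 7 := by omega
  have hQp : 1 ≤ Q := by omega
  have hc : i * ((j - 1) / Q) + 10 * i + 4 * Q ≤ C + 3 := by
    have hk := S15_key hi hij h hQ1 hQ2 hC1
    by_contra hh
    push Not at hh
    have h1 : C + 4 - 10 * i - 4 * Q ≤ i * ((j - 1) / Q) := by omega
    have h2 : (C + 4 - 10 * i - 4 * Q) * Q ≤ i * ((j - 1) / Q) * Q := Nat.mul_le_mul_right _ h1
    have h3 : i * ((j - 1) / Q) * Q ≤ i * (j - 1) := by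
      rw [mul_assoc]
      exact Nat.mul_le_mul_left _ (Nat.div_mul_le_self _ _)
    omega
  refine ⟨2 * i + Q, (j - 1) / Q + 1, Nat.le_add_left _ _, ?_, by omega, ?_⟩
  · have h1 : (j - 1) / ((j - 1) / Q + 1) < Q := by
      rw [Nat.div_lt_iff_lt_mul (Nat.succ_pos _)]
      exact Nat.lt_mul_div_succ _ hQp
    omega
  · have e : i * ((j - 1) / Q + 1) = i * ((j - 1) / Q) + i := by ring
    rw [e]
    omega

end H61L
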