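import Pool.Agent.Lib.H61L.Main
import Pool.Agent.Lib.H61L.S15

/-!
# Linking a small and a large set: all cases

`link_all`: in a `(j + C)`-connected graph with `36 i j ≤ C ^ 2` any two disjoint sets of sizes
`1 ≤ i ≤ j` lie in disjoint connected sets; `link_rel`: the same after deleting vertices.
-/

open Classical H47G

namespace H61L

section

variable {V : Type} [Fintype V] {G : SimpleGraph V} {r : ℕ}

/-- The neighbourhoods are large. -/
private theorem fin_le_nb {m : ℕ} (hG : RConn G r) {X : Finset V} (hX : X.card = m) (hm : m ≤ r)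
    {W : Finset V} (hW : W ⊆ Finset.univ \ X) (hne : W.Nonempty) :
    m ≤ (nb G Finset.univ W).card := by
  by_contra hlt
  push Not at hlt
  set Z := nb G Finset.univ W with hZ
  have h1 := hG.cut Z W (by omega) hne nb_disjoint.symm (by
    intro a ha b hbZ hbW hab
    exact hbZ (mem_nb.2 ⟨Finset.mem_univ b, hbW, a, ha, hab⟩))
  have h2 : X ⊆ Z := by
    intro x hx
    by_contra hxn
    exact (Finset.mem_sdiff.1 (hW (h1 x hxn))).2 hx
  have := Finset.card_le_card h2
  omega

/-- A `2 m`-connected graph and `m` roots form a massed pair. -/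
private theorem fin_massed {m : ℕ} (hm : 0 < m) (hG : RConn G (2 * m)) {X : Finset V}
    (hX : X.card = m) : Massed m G X (Finset.univ \ X) := by
  have hU : X ∪ (Finset.univ \ X) = Finset.univ :=
    Finset.union_sdiff_of_subset (Finset.subset_univ X)
  refine ⟨Finset.disjoint_sdiff, hX.le, ?_, fun W hW hlt ↦ ?_⟩
  · rw [hU]
    set H := Finset.univ \ X with hH
    have hVc := hG.card
    have hHcard : H.card + m = Fintype.card V := by
      rw [hH, ← hX, Finset.card_sdiff_add_card_eq_card (Finset.subset_univ X), Finset.card_univ]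
    have hHne : H.Nonempty := Finset.card_pos.1 (by omega)
    set A := H.sigma fun v ↦ nb G Finset.univ {v} with hA
    have hA1 : H.card * (2 * m) ≤ A.card := by
      rw [hA, Finset.card_sigma, ← smul_eq_mul]
      exact Finset.card_nsmul_le_sum H _ _ fun v _ ↦ hG.degree v
    -- an edge between `X` and `H`
    obtain ⟨x, hx, h, hh, hxh⟩ : ∃ x ∈ X, ∃ h ∈ H, G.Adj x h := by
      by_contra hno
      push Not at hno
      have h1 := hG.cut ∅ H (by simp; omega) hHne (Finset.disjoint_empty_right H) (by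
        intro a ha b _ hbH hab
        have hbX : b ∈ X := by
          by_contra hbX
          exact hbH (by simp [hH, hbX])
        exact hno b hbX a ha hab.symm)
      obtain ⟨x, hx⟩ : X.Nonempty := Finset.card_pos.1 (by omega)
      exact (Finset.mem_sdiff.1 (h1 x (Finset.notMem_empty x))).2 hx
    have hinj : Function.Injective (fun q : (_ : V) × V ↦ (q.1, q.2)) := by
      rintro ⟨a, b⟩ ⟨a', b'⟩ heq
      simp only [Prod.mk.injEq] at heq
      obtain ⟨rfl, rfl⟩ := heq
      rfl
    have hnot : (x, h) ∉ A.image (fun q : (_ : V) × V ↦ (q.1, q.2)) := by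
      intro hmem
      obtain ⟨⟨a, b⟩, hab, heq⟩ := Finset.mem_image.1 hmem
      simp only [Prod.mk.injEq] at heq
      obtain ⟨rfl, rfl⟩ := heq
      exact (Finset.mem_sdiff.1 (Finset.mem_sigma.1 hab).1).2 hx
    have hsub : insert (x, h) (A.image (fun q : (_ : V) × V ↦ (q.1, q.2))) ⊆
        P G Finset.univ H := by
      intro q hq
      rcases Finset.mem_insert.1 hq with rfl | hq
      · exact mem_P.2 ⟨Finset.mem_univ _, Finset.mem_univ _, hxh, Or.inr hh⟩
      · obtain ⟨⟨a, b⟩, hab, rfl⟩ := Finset.mem_image.1 hq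
        obtain ⟨h1, h2⟩ := Finset.mem_sigma.1 hab
        obtain ⟨h3, h4, w, hw, hwy⟩ := mem_nb.1 h2
        rw [Finset.mem_singleton] at hw
        rw [hw] at hwy
        exact mem_P.2 ⟨Finset.mem_univ _, h3, hwy, Or.inl h1⟩
    have h5 := Finset.card_le_card hsub
    rw [Finset.card_insert_of_notMem hnot, Finset.card_image_of_injective _ hinj] at h5
    have h6 : H.card * (2 * m) = 2 * m * H.card := mul_comm _ _
    omega
  · rw [hU] at hlt ⊢
    rcases W.eq_empty_or_nonempty with rfl | hne
    · have : P G Finset.univ ∅ = ∅ := by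
        ext q
        simp [mem_P]
      simp [this]
    · have : m ≤ (nb G Finset.univ W).card := fin_le_nb hG hX (by omega) hW hne
      omega

/-- Monotonicity of the connectivity. -/
theorem RConn.mono {r' : ℕ} (hG : RConn G r) (h : r' ≤ r) : RConn G r' :=
  ⟨h.trans_lt hG.card, fun Z U hZ hn hd hc ↦ hG.cut Z U (hZ.trans_le h) hn hd hc⟩

/-- All cases. -/
theorem link_all {i j C : ℕ} (hi : 1 ≤ i) (hij : i ≤ j) (h : 36 * i * j ≤ C ^ 2)
    (hG : RConn G (j + C)) {S₁ S₂ : Finset V} (h1 : S₁.card = i) (h2 : S₂.card = j)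
    (hd : Disjoint S₁ S₂) :
    ∃ F₁ F₂ : Finset V, S₁ ⊆ F₁ ∧ S₂ ⊆ F₂ ∧ Disjoint F₁ F₂ ∧ Conn G F₁ ∧ Conn G F₂ := by
  have hC : 1 ≤ C := by
    by_contra hlt
    have hC0 : C = 0 := by omega
    subst hC0
    have : 0 < 36 * i * j := Nat.mul_pos (Nat.mul_pos (by norm_num) hi) (by omega)
    omega
  rcases Nat.lt_or_ge i 2 with hi2 | hi2
  · have hi1 : i = 1 := by omega
    subst hi1
    obtain ⟨x, rfl⟩ := Finset.card_eq_one.1 h1
    refine ⟨{x}, Finset.univ \ {x}, Finset.Subset.refl _, ?_, Finset.disjoint_sdiff,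
      conn_singleton x, hG.conn_compl (by simp; omega)⟩
    intro y hy
    refine Finset.mem_sdiff.2 ⟨Finset.mem_univ y, fun hyx ↦ ?_⟩
    exact Finset.disjoint_left.1 hd hyx hy
  rcases Nat.lt_or_ge C (j + 2 * i) with hlt | hge
  · obtain ⟨k, μ, k1, k2, k3, k4⟩ := arithmetic2 hi2 hij h hlt
    subst h1 h2
    exact link hG hd hi (hi.trans hij) k1 k2 (by omega) (by omega)
  · have hX : (S₁ ∪ S₂).card = i + j := by
      rw [Finset.card_union_of_disjoint hd, h1, h2]
    have hk := massed_knit (fin_massed (m := i + j) (by omega) (hG.mono (by omega)) hX)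
    obtain ⟨F₁, F₂, -, -, f3, f4, f5, f6, f7⟩ := hk S₁ Finset.subset_union_left
    refine ⟨F₁, F₂, f4, fun x hx ↦ f5 (Finset.mem_sdiff.2
      ⟨Finset.mem_union_right _ hx, fun h ↦ Finset.disjoint_left.1 hd h hx⟩), f3, f6, f7⟩

end

section

variable {V : Type} {G : SimpleGraph V}

/-- Connected sets of an induced subgraph. -/
private theorem fin_conn_map {s : Set V} {F : Finset s} (hF : Conn (G.induce s) F) :
    Conn G (F.map (Function.Embedding.subtype _)) := by
  intro A hA hn hne
  obtain ⟨a, ha, b, hb, hbA, hab⟩ := hF (F.filter (fun z : s ↦ (z : V) ∈ A))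
    (Finset.filter_subset _ _)
    (by
      obtain ⟨x, hx⟩ := hn
      obtain ⟨y, hy, hyx⟩ := Finset.mem_map.1 (hA hx)
      refine ⟨y, Finset.mem_filter.2 ⟨hy, ?_⟩⟩
      have : (y : V) = x := hyx
      rwa [this])
    (by
      intro heq
      apply hne
      refine Finset.Subset.antisymm hA fun x hx ↦ ?_
      obtain ⟨y, hy, hyx⟩ := Finset.mem_map.1 hx
      have h1 : y ∈ F.filter (fun z : s ↦ (z : V) ∈ A) := by
        rw [heq]
        exact hy
      have h2 : (y : V) = x := hyx
      rw [← h2]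
      exact (Finset.mem_filter.1 h1).2)
  refine ⟨(a : V), (Finset.mem_filter.1 ha).2, (b : V), Finset.mem_map.2 ⟨b, hb, rfl⟩,
    fun h ↦ hbA (Finset.mem_filter.2 ⟨hb, h⟩), ?_⟩
  simpa using hab

variable [Fintype V]

/-- Deleting vertices. -/
private theorem fin_rel {r : ℕ} {T : Finset V} (hG : RConn G (r + T.card)) :
    RConn (G.induce {v : V | v ∉ T}) r := by
  have hinj : Function.Injective (Subtype.val : {v : V | v ∉ T} → V) := Subtype.val_injective
  refine ⟨?_, ?_⟩
  · have h1 := hG.card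
    have h2 : Fintype.card {v : V | v ∉ T} = Fintype.card V - T.card := by
      rw [← Finset.card_univ (α := V), ← Finset.card_sdiff_of_subset (Finset.subset_univ T),
        Fintype.card_of_subtype]
      intro x
      simp
    omega
  · intro Z U hZ hn hd hcl b hbZ
    have h3 := hG.cut (Z.map (Function.Embedding.subtype _) ∪ T)
      (U.map (Function.Embedding.subtype _)) (by
        have := Finset.card_union_le (Z.map (Function.Embedding.subtype _)) T
        rw [Finset.card_map] at this
        omega) (by simpa using hn) (by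
        rw [Finset.disjoint_left]
        intro x hx hx'
        obtain ⟨u, hu, hux⟩ := Finset.mem_map.1 hx
        have hux' : (u : V) = x := hux
        rcases Finset.mem_union.1 hx' with h | h
        · obtain ⟨z, hz, hzx⟩ := Finset.mem_map.1 h
          have hzx' : (z : V) = x := hzx
          have : u = z := hinj (hux'.trans hzx'.symm)
          exact Finset.disjoint_left.1 hd hu (this ▸ hz)
        · exact u.2 (hux' ▸ h)) (by
        intro a ha c hc hcU hac
        obtain ⟨u, hu, rfl⟩ := Finset.mem_map.1 ha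
        rw [Finset.mem_union, not_or] at hc
        refine hcl u hu ⟨c, hc.2⟩ (fun h ↦ hc.1 (Finset.mem_map.2 ⟨_, h, rfl⟩))
          (fun h ↦ hcU (Finset.mem_map.2 ⟨_, h, rfl⟩)) ?_
        simpa using hac)
      (b : V) (by
        rw [Finset.mem_union, not_or]
        refine ⟨fun h ↦ ?_, b.2⟩
        obtain ⟨z, hz, hzb⟩ := Finset.mem_map.1 h
        have : z = b := hinj hzb
        exact hbZ (this ▸ hz))
    obtain ⟨u, hu, hub⟩ := Finset.mem_map.1 h3
    have : u = b := hinj hub
    exact this ▸ hu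

/-- Linking outside a set `T`. -/
theorem link_rel {i j C : ℕ} (hi : 1 ≤ i) (hij : i ≤ j) (h : 36 * i * j ≤ C ^ 2)
    {T : Finset V} (hG : RConn G (j + C + T.card)) {S₁ S₂ : Finset V} (h1 : S₁.card = i)
    (h2 : S₂.card = j) (hd : Disjoint S₁ S₂) (hT : Disjoint (S₁ ∪ S₂) T) :
    ∃ F₁ F₂ : Finset V, F₁ ⊆ Finset.univ \ T ∧ F₂ ⊆ Finset.univ \ T ∧ S₁ ⊆ F₁ ∧ S₂ ⊆ F₂ ∧
      Disjoint F₁ F₂ ∧ Conn G F₁ ∧ Conn G F₂ := by
  have hsub : ∀ S : Finset V, Disjoint S T → (S.subtype fun v ↦ v ∈ {v : V | v ∉ T}).map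
      (Function.Embedding.subtype _) = S := by
    intro S hS
    rw [Finset.subtype_map, Finset.filter_true_of_mem]
    intro x hx
    exact Finset.disjoint_left.1 hS hx
  have hS1 : Disjoint S₁ T := hT.mono_left Finset.subset_union_left
  have hS2 : Disjoint S₂ T := hT.mono_left Finset.subset_union_right
  have hcard : ∀ S : Finset V, Disjoint S T →
      (S.subtype fun v ↦ v ∈ {v : V | v ∉ T}).card = S.card := by
    intro S hS
    rw [← Finset.card_map (Function.Embedding.subtype _), hsub S hS]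
  obtain ⟨F₁, F₂, f1, f2, f3, f4, f5⟩ := link_all hi hij h (fin_rel hG)
    (S₁ := S₁.subtype fun v ↦ v ∈ {v : V | v ∉ T}) (S₂ := S₂.subtype fun v ↦ v ∈ {v : V | v ∉ T})
    ((hcard S₁ hS1).trans h1) ((hcard S₂ hS2).trans h2) (by
      rw [Finset.disjoint_left]
      intro x hx hx'
      exact Finset.disjoint_left.1 hd (Finset.mem_subtype.1 hx) (Finset.mem_subtype.1 hx'))
  have hout : ∀ F : Finset {v : V | v ∉ T},
      F.map (Function.Embedding.subtype _) ⊆ Finset.univ \ T := by
    intro F x hx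
    obtain ⟨y, -, rfl⟩ := Finset.mem_map.1 hx
    exact Finset.mem_sdiff.2 ⟨Finset.mem_univ _, y.2⟩
  refine ⟨F₁.map (Function.Embedding.subtype _), F₂.map (Function.Embedding.subtype _),
    hout F₁, hout F₂, ?_, ?_, ?_, fin_conn_map f4, fin_conn_map f5⟩
  · rw [← hsub S₁ hS1]
    exact Finset.map_subset_map.2 f1
  · rw [← hsub S₂ hS2]
    exact Finset.map_subset_map.2 f2
  · exact (Finset.disjoint_map _).2 f3

end

end H61L
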