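import Pool.Agent.Lib.H61L.Base

/-! # Chunk S10 of board h61l: classes. -/

open Classical H47G

namespace H61L

variable {V : Type} {G : SimpleGraph V}

private theorem s10_sub {M K U : Finset V} {x : V} (hU : Conn G U) (hUM : U ⊆ M)
    (hcl : ∀ a ∈ K, ∀ b ∈ M, b ∉ K → ¬ G.Adj a b) (hx : x ∈ U) (hxK : x ∈ K) : U ⊆ K := by
  by_contra hno
  have hA : U ∩ K ≠ U := fun e ↦ hno (Finset.inter_eq_left.1 e)
  obtain ⟨a, ha, b, hb, hbA, hab⟩ := hU (U ∩ K) Finset.inter_subset_left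
    ⟨x, Finset.mem_inter.2 ⟨hx, hxK⟩⟩ hA
  exact hcl a (Finset.mem_inter.1 ha).2 b (hUM hb)
    (fun hbK ↦ hbA (Finset.mem_inter.2 ⟨hb, hbK⟩)) hab

/-- `Φ r` is the component (`H47G.exists_component`) of `(I \ D).biUnion U` which contains a
vertex of `U r` (hence all of `U r`, since `U r` is connected).  Every `U c`, `c ∈ I \ D`, is
contained in one of the `Φ r`: strong induction on `h c`; if `c = ρ` or `p c ∈ D` take `r = c`;
otherwise `p c ∈ I \ D`, `U (p c) ⊆ Φ r` for some `r`, and `U c` is joined to `U (p c)` by an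
edge. -/
theorem exists_classes {I D : Finset V} {U : V → Finset V} {p : V → V} {h : V → ℕ} {ρ : V}
    (hU : ∀ c ∈ I, Conn G (U c)) (hne : ∀ c ∈ I, (U c).Nonempty)
    (hp : ∀ c ∈ I, c ≠ ρ → p c ∈ I ∧ h (p c) < h c ∧ ∃ u ∈ U c, ∃ w ∈ U (p c), G.Adj u w) :
    ∃ Φ : V → Finset V,
      (∀ c ∈ (I \ D).filter (fun c ↦ c = ρ ∨ p c ∈ D),
        Conn G (Φ c) ∧ U c ⊆ Φ c ∧ Φ c ⊆ (I \ D).biUnion U) ∧
      ∀ c ∈ I \ D, ∃ d ∈ (I \ D).filter (fun c ↦ c = ρ ∨ p c ∈ D), U c ⊆ Φ d := by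
  have key : ∀ c, c ∈ I \ D → ∃ K : Finset V, K ⊆ (I \ D).biUnion U ∧ Conn G K ∧ U c ⊆ K ∧
      ∀ a ∈ K, ∀ b ∈ (I \ D).biUnion U, b ∉ K → ¬ G.Adj a b := by
    intro c hc
    have hcI := (Finset.mem_sdiff.1 hc).1
    obtain ⟨x, hx⟩ := hne c hcI
    obtain ⟨K, hKM, hxK, hKc, hcl⟩ := exists_component G (M := (I \ D).biUnion U) (r := x)
      (Finset.mem_biUnion.2 ⟨c, hc, hx⟩)
    exact ⟨K, hKM, hKc, s10_sub (hU c hcI) (fun y hy ↦ Finset.mem_biUnion.2 ⟨c, hc, hy⟩) hcl hx hxK,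
      hcl⟩
  choose! Φ hΦM hΦc hΦU hΦcl using key
  refine ⟨Φ, fun c hc ↦ ?_, ?_⟩
  · have hc' := (Finset.mem_filter.1 hc).1
    exact ⟨hΦc c hc', hΦU c hc', hΦM c hc'⟩
  · intro c hc
    induction hn : h c using Nat.strong_induction_on generalizing c with
    | _ n ih =>
      by_cases hcr : c = ρ ∨ p c ∈ D
      · exact ⟨c, Finset.mem_filter.2 ⟨hc, hcr⟩, hΦU c hc⟩
      · push Not at hcr
        have hcI := (Finset.mem_sdiff.1 hc).1
        obtain ⟨hpI, hlt, u, hu, w, hw, huw⟩ := hp c hcI hcr.1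
        have hpc : p c ∈ I \ D := Finset.mem_sdiff.2 ⟨hpI, hcr.2⟩
        obtain ⟨d, hd, hsub⟩ := ih (h (p c)) (hn ▸ hlt) (p c) hpc rfl
        have hd' := (Finset.mem_filter.1 hd).1
        have huM : u ∈ (I \ D).biUnion U := Finset.mem_biUnion.2 ⟨c, hc, hu⟩
        have huΦ : u ∈ Φ d := by
          by_contra hno
          exact hΦcl d hd' w (hsub hw) u huM hno huw.symm
        exact ⟨d, hd, s10_sub (hU c hcI) (fun y hy ↦ Finset.mem_biUnion.2 ⟨c, hc, hy⟩)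
          (hΦcl d hd') hu huΦ⟩

end H61L
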