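import Pool.Agent.Lib.H61L.Base

/-! # Chunk S11 of board h61l: averaging. -/

open Classical H47G

namespace H61L

variable {V : Type}

/-- Averaging.  Put `ch d = |(I.erase ρ).filter (p · = d)|`.  For `x ∈ S₁` choose `a x ∈ Ax x`
with `ch (a x)` minimal, so `μ ch (a x) ≤ ∑ d ∈ Ax x, ch d`; summing over `x` (the `Ax x` are
disjoint) `μ ∑ x ∈ S₁, ch (a x) ≤ |I| - 1`.  The set of the statement is contained in
`{ρ} ∪ ⋃ x ∈ S₁, (I.erase ρ).filter (p · = a x)`. -/
theorem choose_min {I S₁ : Finset V} {Ax : V → Finset V} {p : V → V} {ρ : V} {μ : ℕ}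
    (hρ : ρ ∈ I) (hμ : 1 ≤ μ) (hA : ∀ x ∈ S₁, (Ax x).card = μ)
    (hd : ∀ x ∈ S₁, ∀ y ∈ S₁, x ≠ y → Disjoint (Ax x) (Ax y)) :
    ∃ a : V → V, (∀ x ∈ S₁, a x ∈ Ax x) ∧
      μ * ((I \ S₁.image a).filter (fun c ↦ c = ρ ∨ p c ∈ S₁.image a)).card ≤
        μ + (I.card - 1) := by
  set ch : V → ℕ := fun d => ((I.erase ρ).filter (fun c => p c = d)).card with hch
  have hex : ∀ x : V, ∃ y : V, x ∈ S₁ → y ∈ Ax x ∧ ∀ z ∈ Ax x, ch y ≤ ch z := by
    intro x
    by_cases hx : x ∈ S₁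
    · have hne : (Ax x).Nonempty := by
        rw [← Finset.card_pos, hA x hx]
        omega
      obtain ⟨y, hy, hmin⟩ := Finset.exists_min_image (Ax x) ch hne
      exact ⟨y, fun _ => ⟨hy, hmin⟩⟩
    · exact ⟨x, fun h => absurd h hx⟩
  choose a ha using hex
  refine ⟨a, fun x hx => (ha x hx).1, ?_⟩
  have h1 : ((I \ S₁.image a).filter (fun c ↦ c = ρ ∨ p c ∈ S₁.image a)).card ≤
      1 + ∑ x ∈ S₁, ch (a x) := by
    have hsub : (I \ S₁.image a).filter (fun c ↦ c = ρ ∨ p c ∈ S₁.image a) ⊆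
        {ρ} ∪ S₁.biUnion (fun x => (I.erase ρ).filter (fun c => p c = a x)) := by
      intro c hc
      rw [Finset.mem_filter, Finset.mem_sdiff] at hc
      rw [Finset.mem_union, Finset.mem_singleton, Finset.mem_biUnion]
      by_cases hcr : c = ρ
      · exact Or.inl hcr
      · right
        rcases hc.2 with h | h
        · exact absurd h hcr
        · rw [Finset.mem_image] at h
          obtain ⟨x, hx, hxa⟩ := h
          refine ⟨x, hx, ?_⟩
          rw [Finset.mem_filter, Finset.mem_erase]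
          exact ⟨⟨hcr, hc.1.1⟩, hxa.symm⟩
    refine (Finset.card_le_card hsub).trans ((Finset.card_union_le _ _).trans ?_)
    rw [Finset.card_singleton]
    exact Nat.add_le_add_left Finset.card_biUnion_le _
  have h2 : ∀ x ∈ S₁, μ * ch (a x) ≤ ∑ d ∈ Ax x, ch d := by
    intro x hx
    have h := Finset.card_nsmul_le_sum (Ax x) ch (ch (a x)) (fun z hz => (ha x hx).2 z hz)
    rwa [hA x hx, smul_eq_mul] at h
  have h3 : ∑ x ∈ S₁, ∑ d ∈ Ax x, ch d ≤ I.card - 1 := by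
    rw [← Finset.sum_biUnion (fun x hx y hy hxy => hd x hx y hy hxy), ← Finset.card_erase_of_mem hρ]
    rw [← Finset.card_biUnion]
    · refine Finset.card_le_card ?_
      intro c hc
      rw [Finset.mem_biUnion] at hc
      obtain ⟨d, _, hc⟩ := hc
      exact (Finset.mem_filter.1 hc).1
    · intro d _ d' _ hdd
      rw [Function.onFun, Finset.disjoint_left]
      intro c hc hc'
      exact hdd ((Finset.mem_filter.1 hc).2.symm.trans (Finset.mem_filter.1 hc').2)
  calc μ * ((I \ S₁.image a).filter (fun c ↦ c = ρ ∨ p c ∈ S₁.image a)).card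
      ≤ μ * (1 + ∑ x ∈ S₁, ch (a x)) := Nat.mul_le_mul_left _ h1
    _ = μ + ∑ x ∈ S₁, μ * ch (a x) := by rw [Nat.mul_add, Nat.mul_one, Finset.mul_sum]
    _ ≤ μ + ∑ x ∈ S₁, ∑ d ∈ Ax x, ch d := Nat.add_le_add_left (Finset.sum_le_sum h2) _
    _ ≤ μ + (I.card - 1) := Nat.add_le_add_left h3 _

end H61L
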