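import Pool.Agent.Lib.H61L.Base

/-! # Chunk S12 of board h61l: choice of representatives. -/

open Classical H47G

namespace H61L

variable {V : Type}

/-- Hall's theorem (`Finset.all_card_le_biUnion_card_iff_exists_injective` on the subtype of `E`)
or a greedy choice: a subset `s` of `E` containing an element with at least `k ≥ |E| ≥ |s|`
candidates is fine, and otherwise all candidate sets are distinct singletons. -/
theorem hall_choice {E : Finset V} {k : ℕ} (hE : E.card ≤ k) {θ : V → V}
    {t : V → Finset V} (hθ : ∀ c ∈ E, ∀ d ∈ E, θ c = θ d → c = d)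
    (ht : ∀ c ∈ E, t c = {θ c} ∨ k ≤ (t c).card) :
    ∃ b : V → V, (∀ c ∈ E, b c ∈ t c) ∧ ∀ c ∈ E, ∀ d ∈ E, b c = b d → c = d := by
  have key : ∀ s : Finset {c // c ∈ E}, s.card ≤ (s.biUnion fun c => t c.1).card := by
    intro s
    by_cases h : ∃ c ∈ s, k ≤ (t c.1).card
    · obtain ⟨c, hc, hk⟩ := h
      have h1 : s.card ≤ E.card := by
        have h2 := Finset.card_le_univ s
        rwa [Fintype.card_coe] at h2
      have h3 : (t c.1).card ≤ (s.biUnion fun c => t c.1).card :=
        Finset.card_le_card (Finset.subset_biUnion_of_mem (fun c : {c // c ∈ E} => t c.1) hc)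
      omega
    · push Not at h
      have h1 : (s.image fun c => θ c.1).card = s.card := by
        refine Finset.card_image_of_injOn fun c _ d _ hcd => ?_
        exact Subtype.ext (hθ c.1 c.2 d.1 d.2 hcd)
      rw [← h1]
      refine Finset.card_le_card fun z hz => ?_
      obtain ⟨c, hc, rfl⟩ := Finset.mem_image.1 hz
      refine Finset.mem_biUnion.2 ⟨c, hc, ?_⟩
      rcases ht c.1 c.2 with h2 | h2
      · rw [h2]
        exact Finset.mem_singleton_self _
      · exact absurd h2 (not_le.2 (h c hc))
  obtain ⟨f, hf, hft⟩ := (Finset.all_card_le_biUnion_card_iff_exists_injective _).1 key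
  refine ⟨fun c => if h : c ∈ E then f ⟨c, h⟩ else c, fun c hc => ?_, fun c hc d hd h => ?_⟩
  · show (if h : c ∈ E then f ⟨c, h⟩ else c) ∈ t c
    rw [dif_pos hc]
    exact hft ⟨c, hc⟩
  · simp only [dif_pos hc, dif_pos hd] at h
    exact congrArg Subtype.val (hf h)

end H61L
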