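import Pool.Agent.Lib.H61L.S4

/-! # Chunk S5b of board h61l: first massed condition for the region. -/

open Classical H47G

namespace H61L

variable {V : Type} {G : SimpleGraph V}

/-- First condition of `Massed (2 * k)`, with `S = B ∪ nb G Y B`: each `b ∈ B` has at least `δ`
neighbours in `S` (all its neighbours in `Y` are in `S`), of which at least `δ - (k - 1)` are such
that the pair `(b, c)` is in `P G S (S \ X)` (if `b ∈ X`, drop `c ∈ X \ {b}`; at most `k - 1`).
So `|P G S (S \ X)| ≥ (δ - k + 1) |B|`, while `|S \ X| ≤ |B| + 2k`, and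
`(δ - k + 1 - 4k) |B| ≥ (2k + 1) (5k + 1) > 8 k²` by `Region.card_ge`. -/
theorem region_m1 {Y B X : Finset V} {k δ : ℕ} (hB : Region G Y B k)
    (hδ : ∀ y ∈ Y, δ ≤ (nb G Y {y}).card) (h7 : 7 * k ≤ δ) (hk : 1 ≤ k) (hX : X ⊆ B)
    (hc : X.card ≤ k) :
    2 * (2 * k) * ((B ∪ nb G Y B) \ X).card <
      (P G (B ∪ nb G Y B) ((B ∪ nb G Y B) \ X)).card := by
  have hBc := hB.card_ge hδ
  have hbd := hB.bd
  have hsub : ∀ b ∈ B, nb G Y {b} ⊆ B ∪ nb G Y B := by
    intro b hb y hy
    obtain ⟨h1, h2, w, hw, hwy⟩ := mem_nb.1 hy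
    rw [Finset.mem_singleton] at hw
    subst hw
    by_cases hyB : y ∈ B
    · exact Finset.mem_union_left _ hyB
    · exact Finset.mem_union_right _ (mem_nb.2 ⟨h1, hyB, w, hb, hwy⟩)
  have hScard : ((B ∪ nb G Y B) \ X).card ≤ B.card + 2 * k := by
    have h1 := Finset.card_le_card (Finset.sdiff_subset (s := B ∪ nb G Y B) (t := X))
    have h2 := Finset.card_union_le B (nb G Y B)
    omega
  have hBS : B ⊆ B ∪ nb G Y B := Finset.subset_union_left
  set S := B ∪ nb G Y B with hS
  have hD : ∀ b ∈ B, δ + 1 ≤ ((P G S (S \ X)).filter fun q ↦ q.1 = b).card + k := by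
    intro b hb
    have hdeg := hδ b (hB.sub hb)
    have hadj : ∀ c ∈ nb G Y {b}, c ∈ S ∧ G.Adj b c ∧ c ≠ b := by
      intro c hc
      obtain ⟨h1, h2, w, hw, hwy⟩ := mem_nb.1 hc
      rw [Finset.mem_singleton] at hw h2
      subst hw
      exact ⟨hsub w hb hc, hwy, h2⟩
    by_cases hbX : b ∈ X
    · have h1 : ((nb G Y {b}) \ (X.erase b)).card ≤
          ((P G S (S \ X)).filter fun q ↦ q.1 = b).card := by
        refine Finset.card_le_card_of_injOn (fun c ↦ (b, c)) ?_ ?_
        · intro c hc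
          obtain ⟨h3, h4⟩ := Finset.mem_sdiff.1 (Finset.mem_coe.1 hc)
          obtain ⟨h5, h6, h7⟩ := hadj c h3
          refine Finset.mem_coe.2 (Finset.mem_filter.2 ⟨mem_P.2 ⟨hBS hb, h5, h6, Or.inr ?_⟩, rfl⟩)
          refine Finset.mem_sdiff.2 ⟨h5, fun h8 ↦ h4 (Finset.mem_erase.2 ⟨h7, h8⟩)⟩
        · intro c _ d _ h
          exact (Prod.mk.inj h).2
      have h2 : (nb G Y {b}).card ≤ ((nb G Y {b}) \ (X.erase b)).card + (X.erase b).card :=
        Finset.card_le_card_sdiff_add_card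
      have h3 := Finset.card_erase_add_one hbX
      omega
    · have h1 : (nb G Y {b}).card ≤ ((P G S (S \ X)).filter fun q ↦ q.1 = b).card := by
        refine Finset.card_le_card_of_injOn (fun c ↦ (b, c)) ?_ ?_
        · intro c hc
          obtain ⟨h5, h6, h7⟩ := hadj c (Finset.mem_coe.1 hc)
          exact Finset.mem_coe.2 (Finset.mem_filter.2
            ⟨mem_P.2 ⟨hBS hb, h5, h6, Or.inl (Finset.mem_sdiff.2 ⟨hBS hb, hbX⟩)⟩, rfl⟩)
        · intro c _ d _ h
          exact (Prod.mk.inj h).2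
      omega
  have hsum : ∑ b ∈ B, ((P G S (S \ X)).filter fun q ↦ q.1 = b).card ≤
      (P G S (S \ X)).card := by
    rw [← Finset.card_biUnion]
    · exact Finset.card_le_card (Finset.biUnion_subset.2 fun b _ ↦ Finset.filter_subset _ _)
    · intro b _ b' _ hne
      refine Finset.disjoint_left.2 fun q h1 h2 ↦ hne ?_
      exact (Finset.mem_filter.1 h1).2.symm.trans (Finset.mem_filter.1 h2).2
  have hlow : B.card * (δ + 1) ≤
      ∑ b ∈ B, ((P G S (S \ X)).filter fun q ↦ q.1 = b).card + B.card * k := by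
    have h1 : ∑ b ∈ B, (δ + 1) ≤
        ∑ b ∈ B, (((P G S (S \ X)).filter fun q ↦ q.1 = b).card + k) :=
      Finset.sum_le_sum hD
    rw [Finset.sum_add_distrib (s := B) (g := fun _ ↦ k), Finset.sum_const, Finset.sum_const,
      smul_eq_mul, smul_eq_mul] at h1
    exact h1
  have h5 : 5 * k + 1 ≤ B.card := by omega
  generalize B.card = β at *
  generalize (S \ X).card = σ at *
  generalize (P G S (S \ X)).card = π at *
  have e1 : 2 * (2 * k) * σ ≤ 4 * k * (β + 2 * k) := by
    have := Nat.mul_le_mul_left (4 * k) hScard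
    linarith
  have e2 : β * (7 * k + 1) ≤ π + β * k := by
    have : β * (7 * k + 1) ≤ β * (δ + 1) := Nat.mul_le_mul_left _ (by omega)
    omega
  nlinarith

end H61L
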