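import Pool.Agent.Lib.H61L.S5a
import Pool.Agent.Lib.H61L.S5b

/-! # The region with its boundary is knit. -/

open Classical H47G

namespace H61L

variable {V : Type} {G : SimpleGraph V}

/-- The region is knit. -/
theorem region_knit {Y B X : Finset V} {k δ : ℕ} (hB : Region G Y B k)
    (hδ : ∀ y ∈ Y, δ ≤ (nb G Y {y}).card) (h7 : 7 * k ≤ δ) (hk : 1 ≤ k) (hX : X ⊆ B)
    (hc : X.card ≤ k) : Knit G (B ∪ nb G Y B) X := by
  have hXS : X ⊆ B ∪ nb G Y B := hX.trans Finset.subset_union_left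
  have hU : X ∪ ((B ∪ nb G Y B) \ X) = B ∪ nb G Y B := Finset.union_sdiff_of_subset hXS
  have hM : Massed (2 * k) G X ((B ∪ nb G Y B) \ X) := by
    refine ⟨Finset.disjoint_sdiff, by omega, ?_, fun W hW hlt ↦ ?_⟩
    · rw [hU]
      exact region_m1 hB hδ h7 hk hX hc
    · rw [hU] at hlt ⊢
      exact region_m2 hB hX hc hW hlt
  have h := massed_knit hM
  rwa [hU] at h

end H61L
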