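import Pool.Agent.Lib.H61L.S2

/-! # Chunk S6 of board h61l: many fat vertices. -/

open Classical H47G

namespace H61L

variable {V : Type} [Fintype V] {G : SimpleGraph V} {r : ℕ} {S₁ S₂ T : Finset V}

/-- the neighbours of one vertex of the region -/
private theorem s6_vertex (hS : Setup G r S₁ S₂ T) {B : Finset V} {k : ℕ}
    (hB : Region G (Finset.univ \ (T ∪ S₁)) B k) {b : V} (hb : b ∈ B) :
    r + 1 ≤ (T.filter fun t ↦ G.Adj t b).card + (B.card + 2 * k + S₁.card) := by
  have h1 := hS.conn.degree b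
  have h2 : nb G Finset.univ {b} ⊆ (B.erase b ∪ nb G (Finset.univ \ (T ∪ S₁)) B) ∪
      (S₁ ∪ T.filter fun t ↦ G.Adj t b) := by
    intro y hy
    obtain ⟨-, hyb, w, hw, hwy⟩ := mem_nb.1 hy
    have hwb : w = b := Finset.mem_singleton.1 hw
    subst hwb
    by_cases hyT : y ∈ T
    · exact Finset.mem_union_right _ (Finset.mem_union_right _
        (Finset.mem_filter.2 ⟨hyT, hwy.symm⟩))
    · by_cases hyS : y ∈ S₁
      · exact Finset.mem_union_right _ (Finset.mem_union_left _ hyS)
      · by_cases hyB : y ∈ B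
        · refine Finset.mem_union_left _ (Finset.mem_union_left _ (Finset.mem_erase.2 ⟨?_, hyB⟩))
          intro h
          exact hyb (Finset.mem_singleton.2 h)
        · refine Finset.mem_union_left _ (Finset.mem_union_right _
            (mem_nb.2 ⟨?_, hyB, w, hb, hwy⟩))
          rw [Finset.mem_sdiff, Finset.mem_union]
          exact ⟨Finset.mem_univ _, fun h => h.elim hyT hyS⟩
  have h3 := Finset.card_le_card h2
  have h4 := Finset.card_union_le (B.erase b ∪ nb G (Finset.univ \ (T ∪ S₁)) B)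
    (S₁ ∪ T.filter fun t ↦ G.Adj t b)
  have h5 := Finset.card_union_le (B.erase b) (nb G (Finset.univ \ (T ∪ S₁)) B)
  have h6 := Finset.card_union_le S₁ (T.filter fun t ↦ G.Adj t b)
  have h7 := Finset.card_erase_of_mem hb
  have h8 := hB.bd
  have h9 : 0 < B.card := Finset.card_pos.2 ⟨b, hb⟩
  omega

/-- Count the pairs `(b, y)` with `b ∈ B` and `y` a neighbour of `b`: at least `|B| r` of them
(`RConn.degree`).  `y` is in `B \ {b}`, in `nb G Y B` (at most `2k`), in `S₁`, or in `T`.  The
number of pairs with `y ∈ T` is `∑ t ∈ T, |B.filter (G.Adj t)|`, which is at most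
`|fat| |B| + (k - 1) (|adjT G T B| - |fat|)`, and `|adjT G T B| ≤ |S₂| + |B|` by
`card_adjT_le`. -/
theorem fat_bound (hS : Setup G r S₁ S₂ T) {B : Finset V} {k : ℕ} (hk : 1 ≤ k)
    (hB : Region G (Finset.univ \ (T ∪ S₁)) B k) :
    B.card * (r + 1) + (k - 1) * (fat G T B k).card ≤
      B.card * (fat G T B k).card + (k - 1) * (S₂.card + B.card) +
        B.card * (B.card + 2 * k + S₁.card) := by
  have h1 : ∑ _b ∈ B, (r + 1) ≤
      ∑ b ∈ B, ((T.filter fun t ↦ G.Adj t b).card + (B.card + 2 * k + S₁.card)) :=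
    Finset.sum_le_sum fun b hb => s6_vertex hS hB hb
  have h1' : ∑ b ∈ B, ((T.filter fun t ↦ G.Adj t b).card + (B.card + 2 * k + S₁.card)) =
      ∑ b ∈ B, (T.filter fun t ↦ G.Adj t b).card + B.card * (B.card + 2 * k + S₁.card) := by
    rw [Finset.sum_add_distrib, Finset.sum_const (B.card + 2 * k + S₁.card), smul_eq_mul]
  rw [h1', Finset.sum_const, smul_eq_mul] at h1
  have h2 : ∑ b ∈ B, (T.filter fun t ↦ G.Adj t b).card =
      ∑ t ∈ T, (B.filter fun b ↦ G.Adj t b).card := by
    simp only [Finset.card_filter]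
    exact Finset.sum_comm
  have h3 : ∑ t ∈ T, (B.filter fun b ↦ G.Adj t b).card ≤
      ∑ t ∈ T, ((if t ∈ fat G T B k then B.card else 0) +
        (if t ∈ adjT G T B \ fat G T B k then (k - 1) else 0)) := by
    refine Finset.sum_le_sum fun t ht => ?_
    by_cases hf : t ∈ fat G T B k
    · rw [if_pos hf]
      exact (Finset.card_filter_le _ _).trans (Nat.le_add_right _ _)
    · rw [if_neg hf, zero_add]
      by_cases ha : t ∈ adjT G T B
      · rw [if_pos (Finset.mem_sdiff.2 ⟨ha, hf⟩)]
        by_contra hlt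
        exact hf (mem_fat.2 ⟨ht, by omega⟩)
      · rw [if_neg fun h ↦ ha (Finset.mem_sdiff.1 h).1]
        refine le_of_eq (Finset.card_eq_zero.2 (Finset.filter_eq_empty_iff.2 ?_))
        intro q hq hadj
        exact ha (mem_adjT.2 ⟨ht, q, hq, hadj.symm⟩)
  have h4 : ∑ t ∈ T, ((if t ∈ fat G T B k then B.card else 0) +
      (if t ∈ adjT G T B \ fat G T B k then (k - 1) else 0)) =
      (fat G T B k).card * B.card + (adjT G T B \ fat G T B k).card * (k - 1) := by
    rw [Finset.sum_add_distrib]
    congr 1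
    · rw [Finset.sum_ite_mem, Finset.sum_const, smul_eq_mul]
      have : T ∩ fat G T B k = fat G T B k :=
        Finset.inter_eq_right.2 (Finset.filter_subset _ _)
      rw [this]
    · rw [Finset.sum_ite_mem, Finset.sum_const, smul_eq_mul]
      have : T ∩ (adjT G T B \ fat G T B k) = adjT G T B \ fat G T B k :=
        Finset.inter_eq_right.2 (Finset.sdiff_subset.trans (Finset.filter_subset _ _))
      rw [this]
  have hd : Disjoint B (T ∪ S₁) := by
    rw [Finset.disjoint_left]
    intro x hx hxT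
    exact (Finset.mem_sdiff.1 (hB.sub hx)).2 hxT
  have h5 := card_adjT_le hS hB.conn hB.ne hd
  have hfa : fat G T B k ⊆ adjT G T B := by
    intro t ht
    obtain ⟨htT, htk⟩ := mem_fat.1 ht
    obtain ⟨q, hq⟩ := Finset.card_pos.1 (lt_of_lt_of_le hk htk)
    obtain ⟨hqB, hadj⟩ := Finset.mem_filter.1 hq
    exact mem_adjT.2 ⟨htT, q, hqB, hadj.symm⟩
  have h6 : (adjT G T B \ fat G T B k).card + (fat G T B k).card = (adjT G T B).card :=
    Finset.card_sdiff_add_card_eq_card hfa
  have h7 : (adjT G T B \ fat G T B k).card * (k - 1) + (k - 1) * (fat G T B k).card ≤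
      (k - 1) * (S₂.card + B.card) := by
    have h8 : (adjT G T B \ fat G T B k).card * (k - 1) + (k - 1) * (fat G T B k).card =
        (k - 1) * (adjT G T B).card := by
      rw [← h6]
      ring
    rw [h8]
    exact Nat.mul_le_mul_left _ h5
  rw [h2] at h1
  have h9 := h3.trans h4.le
  have h10 : (fat G T B k).card * B.card = B.card * (fat G T B k).card := mul_comm _ _
  omega

end H61L
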