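import Pool.Agent.Lib.H61L.Base

/-! # Chunk S7 of board h61l: disjoint paths from `A` to `Θ` which avoid `R`. -/

open Classical H47G

namespace H61L

variable {V : Type} {G : SimpleGraph V}

/-- A connected `P` with `x ∈ P` which meets `Θ`: either `x ∈ Θ`, or there is a connected
`K ⊆ P`, `x ∈ K`, disjoint from `Θ`, and a vertex `θ ∈ P ∩ Θ` with a neighbour in `K`.
(Same proof as `H47G.first_hit`: `K` is the component of `x` in `P \ Θ`.) -/
theorem first_hit' {P Θ : Finset V} (hP : Conn G P) {x : V} (hx : x ∈ P)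
    (hΘ : (P ∩ Θ).Nonempty) : ∃ (K : Finset V) (θ : V), K ⊆ P ∧ θ ∈ P ∧ θ ∈ Θ ∧ Conn G K ∧
      Disjoint K Θ ∧ ((x ∈ Θ ∧ θ = x ∧ K = ∅) ∨ (x ∈ K ∧ ∃ q ∈ K, G.Adj q θ)) := by
  by_cases hxB : x ∈ Θ
  · exact ⟨∅, x, Finset.empty_subset _, hx, hxB, conn_empty, Finset.disjoint_empty_left _,
      Or.inl ⟨hxB, rfl, rfl⟩⟩
  obtain ⟨K, hKM, hxK, hKc, hcl⟩ := exists_component G (M := P \ Θ) (r := x) (by simp [hx, hxB])
  have hne : K ≠ P := by
    rintro rfl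
    obtain ⟨b, hb⟩ := hΘ
    obtain ⟨hb1, hb2⟩ := Finset.mem_inter.1 hb
    exact (Finset.mem_sdiff.1 (hKM hb1)).2 hb2
  obtain ⟨a, ha, b, hb, hbK, hab⟩ := hP K (hKM.trans Finset.sdiff_subset) ⟨x, hxK⟩ hne
  have hbB : b ∈ Θ := by
    by_contra hbB
    exact hcl a ha b (Finset.mem_sdiff.2 ⟨hb, hbB⟩) hbK hab
  refine ⟨K, b, hKM.trans Finset.sdiff_subset, hb, hbB, hKc, ?_, Or.inr ⟨hxK, a, ha, hab⟩⟩
  rw [Finset.disjoint_left]
  intro y hy hyΘ
  exact (Finset.mem_sdiff.1 (hKM hy)).2 hyΘ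

variable [Fintype V] {r : ℕ}

/-- `H47G.menger` with `S = univ \ R` and `k = |A|`: if `Sep G S A Θ Z U` and `|Z| < |A|`, then
`|Z ∪ R| < r`; if `U` is empty then `A ⊆ Z`, contradiction; otherwise `RConn.cut` (with
`Z ∪ R` and `U`) shows that `U` contains every vertex outside `Z ∪ R`; since `|Θ| ≥ |A| > |Z|`
there is such a vertex in `Θ`, contradiction to `Sep.ub`.  Then `H47G.hits` (for `A`) to index
the sets by the elements of `A`, and `first_hit'`. -/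
theorem menger_system (hG : RConn G r) {A Θ R : Finset V} (hA : Disjoint A R)
    (hΘ : Disjoint Θ R) (hc : A.card ≤ Θ.card) (h : A.card + R.card ≤ r) :
    ∃ (K : V → Finset V) (θ : V → V),
      (∀ a ∈ A, θ a ∈ Θ ∧ Conn G (K a) ∧ Disjoint (K a) (R ∪ Θ) ∧
        ((a ∈ Θ ∧ θ a = a ∧ K a = ∅) ∨ (a ∈ K a ∧ ∃ q ∈ K a, G.Adj q (θ a)))) ∧
      ∀ a ∈ A, ∀ b ∈ A, a ≠ b → Disjoint (insert (θ a) (K a)) (insert (θ b) (K b)) := by
  haveI : Nonempty V := Fintype.card_pos_iff.1 (by have := hG.card; omega)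
  have hAS : A ⊆ Finset.univ \ R := fun x hx ↦
    Finset.mem_sdiff.2 ⟨Finset.mem_univ x, fun hR ↦ Finset.disjoint_left.1 hA hx hR⟩
  have hΘS : Θ ⊆ Finset.univ \ R := fun x hx ↦
    Finset.mem_sdiff.2 ⟨Finset.mem_univ x, fun hR ↦ Finset.disjoint_left.1 hΘ hx hR⟩
  have hsep : ∀ Z U, Sep G (Finset.univ \ R) A Θ Z U → A.card ≤ Z.card := by
    intro Z U hs
    by_contra hlt
    push Not at hlt
    have hZR : (Z ∪ R).card < r := by
      have := Finset.card_union_le Z R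
      omega
    have hUn : U.Nonempty := by
      rw [Finset.nonempty_iff_ne_empty]
      intro hU
      have h1 : A ⊆ Z := by
        intro x hx
        by_contra hxZ
        have h2 := hs.au (Finset.mem_sdiff.2 ⟨hx, hxZ⟩)
        rw [hU] at h2
        exact Finset.notMem_empty x h2
      have := Finset.card_le_card h1
      omega
    have hUZ : Disjoint U (Z ∪ R) := by
      rw [Finset.disjoint_left]
      intro x hx hxZ
      obtain ⟨h1, h2⟩ := Finset.mem_sdiff.1 (hs.us hx)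
      rcases Finset.mem_union.1 hxZ with h3 | h3
      · exact h2 h3
      · exact (Finset.mem_sdiff.1 h1).2 h3
    have hall := hG.cut (Z ∪ R) U hZR hUn hUZ (by
      intro a ha b hb hbU
      refine hs.cl a ha b (Finset.mem_sdiff.2 ⟨Finset.mem_univ b, fun hbR ↦ ?_⟩) (fun hbZ ↦ ?_)
        hbU
      · exact hb (Finset.mem_union_right _ hbR)
      · exact hb (Finset.mem_union_left _ hbZ))
    obtain ⟨t, ht, htZ⟩ : ∃ t ∈ Θ, t ∉ Z := by
      by_contra hno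
      push Not at hno
      have h1 : Θ ⊆ Z := fun x hx ↦ hno x hx
      have := Finset.card_le_card h1
      omega
    have htU : t ∈ U := hall t (fun h1 ↦ by
      rcases Finset.mem_union.1 h1 with h2 | h2
      · exact htZ h2
      · exact Finset.disjoint_left.1 hΘ ht h2)
    exact Finset.disjoint_left.1 hs.ub htU ht
  obtain ⟨f, f1, f2, f3, f4, f5⟩ := menger hAS hΘS hsep
  obtain ⟨z, hz1, hz2⟩ := hits (Z := A) rfl f f3 f5
  have key : ∀ a, a ∈ A → ∃ (i : Fin A.card) (K : Finset V) (θ : V), z i = a ∧ K ⊆ f i ∧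
      θ ∈ f i ∧ θ ∈ Θ ∧ Conn G K ∧ Disjoint K Θ ∧
      ((a ∈ Θ ∧ θ = a ∧ K = ∅) ∨ (a ∈ K ∧ ∃ q ∈ K, G.Adj q θ)) := by
    intro a ha
    obtain ⟨i, hi⟩ := hz2 a ha
    have hai : a ∈ f i := by
      have h1 : a ∈ f i ∩ A := by rw [hz1 i, hi]; exact Finset.mem_singleton_self a
      exact (Finset.mem_inter.1 h1).1
    obtain ⟨K, θ, k1, k2, k3, k4, k5, k6⟩ := first_hit' (f2 i) hai (f4 i)
    exact ⟨i, K, θ, hi, k1, k2, k3, k4, k5, k6⟩
  have key2 : ∀ a, ∃ (Kθ : Finset V × V), a ∈ A → ∃ (i : Fin A.card), z i = a ∧ Kθ.1 ⊆ f i ∧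
      Kθ.2 ∈ f i ∧ Kθ.2 ∈ Θ ∧ Conn G Kθ.1 ∧ Disjoint Kθ.1 Θ ∧
      ((a ∈ Θ ∧ Kθ.2 = a ∧ Kθ.1 = ∅) ∨ (a ∈ Kθ.1 ∧ ∃ q ∈ Kθ.1, G.Adj q Kθ.2)) := by
    intro a
    by_cases ha : a ∈ A
    · obtain ⟨i, K, θ, h0⟩ := key a ha
      exact ⟨(K, θ), fun _ ↦ ⟨i, h0⟩⟩
    · exact ⟨(∅, Classical.arbitrary V), fun h0 ↦ absurd h0 ha⟩
  choose F hF using key2
  refine ⟨fun a ↦ (F a).1, fun a ↦ (F a).2, fun a ha ↦ ?_, fun a ha b hb hab ↦ ?_⟩
  · obtain ⟨i, h0, h1, h2, h3, h4, h5, h6⟩ := hF a ha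
    refine ⟨h3, h4, ?_, h6⟩
    rw [Finset.disjoint_union_right]
    refine ⟨?_, h5⟩
    rw [Finset.disjoint_left]
    intro y hy hyR
    exact (Finset.mem_sdiff.1 (f1 i (h1 hy))).2 hyR
  · obtain ⟨i, h0, h1, h2, -⟩ := hF a ha
    obtain ⟨j, g0, g1, g2, -⟩ := hF b hb
    have hij : i ≠ j := by
      rintro rfl
      exact hab (h0.symm.trans g0)
    have e1 : insert (F a).2 (F a).1 ⊆ f i := Finset.insert_subset h2 h1
    have e2 : insert (F b).2 (F b).1 ⊆ f j := Finset.insert_subset g2 g1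
    rw [Finset.disjoint_left]
    intro y hy hy'
    exact Finset.disjoint_left.1 (f5 i j hij) (e1 hy) (e2 hy')

end H61L
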