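import Pool.Agent.Lib.H61L.Base

/-! # Chunk S8 of board h61l: private neighbours of the vertices of `S₁`. -/

open Classical H47G

namespace H61L

variable {V : Type} [Fintype V] {G : SimpleGraph V} {r : ℕ}

/-- Induction on `S₁` (as a subset of `F`): a vertex `x ∈ F` has at least `r - (|F| - 1)`
neighbours outside `F` (`RConn.degree`), hence at least `μ` of them outside the sets already
chosen (which have together `(|S₁| - 1) μ` elements). -/
theorem exists_sources (hG : RConn G r) {S₁ F : Finset V} (μ : ℕ) (hF : S₁ ⊆ F)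
    (h : S₁.card * μ + F.card ≤ r + 1) :
    ∃ Ax : V → Finset V,
      (∀ x ∈ S₁, (Ax x).card = μ ∧ Disjoint (Ax x) F ∧ ∀ y ∈ Ax x, G.Adj x y) ∧
      ∀ x ∈ S₁, ∀ y ∈ S₁, x ≠ y → Disjoint (Ax x) (Ax y) := by
  induction S₁ using Finset.induction_on with
  | empty => exact ⟨fun _ ↦ ∅, by simp, by simp⟩
  | insert x S hx ih =>
    have hxF : x ∈ F := hF (Finset.mem_insert_self x S)
    rw [Finset.card_insert_of_notMem hx] at h
    have hmul : (S.card + 1) * μ = S.card * μ + μ := by ring
    obtain ⟨Ax, h1, h2⟩ := ih (fun y hy ↦ hF (Finset.mem_insert_of_mem hy)) (by omega)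
    have hN := hG.degree x
    have hNF : (nb G Finset.univ {x} ∩ F).card ≤ F.card - 1 := by
      rw [← Finset.card_erase_of_mem hxF]
      refine Finset.card_le_card fun y hy ↦ ?_
      rw [Finset.mem_inter] at hy
      refine Finset.mem_erase.2 ⟨fun e ↦ ?_, hy.2⟩
      have h3 := (mem_nb.1 hy.1).2.1
      rw [e] at h3
      exact h3 (Finset.mem_singleton_self x)
    have hFpos : 0 < F.card := Finset.card_pos.2 ⟨x, hxF⟩
    have hU : (S.biUnion Ax).card ≤ S.card * μ :=
      Finset.card_biUnion_le_card_mul _ _ _ fun y hy ↦ (h1 y hy).1.le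
    have hsd : μ ≤ ((nb G Finset.univ {x} \ F) \ S.biUnion Ax).card := by
      have e1 := Finset.card_inter_add_card_sdiff (nb G Finset.univ {x}) F
      have e2 := Finset.le_card_sdiff (S.biUnion Ax) (nb G Finset.univ {x} \ F)
      omega
    obtain ⟨B, hB, hBc⟩ := Finset.exists_subset_card_eq hsd
    have hBx : ∀ y ∈ B, G.Adj x y ∧ y ∉ F ∧ y ∉ S.biUnion Ax := by
      intro y hy
      have h3 := Finset.mem_sdiff.1 (hB hy)
      have h4 := Finset.mem_sdiff.1 h3.1
      obtain ⟨-, -, a, ha, hay⟩ := mem_nb.1 h4.1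
      rw [Finset.mem_singleton] at ha
      rw [ha] at hay
      exact ⟨hay, h4.2, h3.2⟩
    have hne : ∀ y ∈ S, y ≠ x := fun y hy e ↦ hx (e ▸ hy)
    have hBd : ∀ y ∈ S, Disjoint B (Ax y) := by
      intro y hy
      rw [Finset.disjoint_left]
      intro z hz hz'
      exact (hBx z hz).2.2 (Finset.mem_biUnion.2 ⟨y, hy, hz'⟩)
    refine ⟨Function.update Ax x B, ?_, ?_⟩
    · intro y hy
      rcases Finset.mem_insert.1 hy with e | hy'
      · rw [e, Function.update_self]
        refine ⟨hBc, ?_, fun z hz ↦ (hBx z hz).1⟩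
        rw [Finset.disjoint_left]
        exact fun z hz ↦ (hBx z hz).2.1
      · rw [Function.update_of_ne (hne y hy')]
        exact h1 y hy'
    · intro y hy z hz hyz
      rcases Finset.mem_insert.1 hy with e | hy'
      · rcases Finset.mem_insert.1 hz with e' | hz'
        · exact absurd (e.trans e'.symm) hyz
        · rw [e, Function.update_self, Function.update_of_ne (hne z hz')]
          exact hBd z hz'
      · rcases Finset.mem_insert.1 hz with e' | hz'
        · rw [e', Function.update_self, Function.update_of_ne (hne y hy')]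
          exact (hBd y hy').symm
        · rw [Function.update_of_ne (hne y hy'), Function.update_of_ne (hne z hz')]
          exact h2 y hy' z hz' hyz

end H61L
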