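import Pool.Agent.Lib.H61L.Base

/-! # Chunk S9a of board h61l: a partition of `T`. -/

open Classical H47G

namespace H61L

variable {V : Type} {G : SimpleGraph V}

private theorem s9a_step {M I : Finset V} {K : V → Finset V} (hM : Conn G M)
    (hne : (I.biUnion K).Nonempty) :
    ∀ (m : ℕ) (U : V → Finset V), (M \ I.biUnion U).card = m →
      (∀ c ∈ I, K c ⊆ U c ∧ Conn G (U c)) →
      (∀ c ∈ I, ∀ d ∈ I, c ≠ d → Disjoint (U c) (U d)) → I.biUnion U ⊆ M →
      ∃ U' : V → Finset V, (∀ c ∈ I, K c ⊆ U' c ∧ Conn G (U' c)) ∧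
        (∀ c ∈ I, ∀ d ∈ I, c ≠ d → Disjoint (U' c) (U' d)) ∧ I.biUnion U' = M := by
  intro m
  induction m with
  | zero =>
    intro U h0 h1 h2 h3
    refine ⟨U, h1, h2, Finset.Subset.antisymm h3 ?_⟩
    exact Finset.sdiff_eq_empty_iff_subset.1 (Finset.card_eq_zero.1 h0)
  | succ m ih =>
    intro U h0 h1 h2 h3
    have hAne : (I.biUnion U).Nonempty := by
      obtain ⟨x, hx⟩ := hne
      obtain ⟨c, hc, hxc⟩ := Finset.mem_biUnion.1 hx
      exact ⟨x, Finset.mem_biUnion.2 ⟨c, hc, (h1 c hc).1 hxc⟩⟩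
    have hAM : I.biUnion U ≠ M := by
      intro h
      rw [h, Finset.sdiff_self, Finset.card_empty] at h0
      omega
    obtain ⟨a, ha, b, hb, hbA, hab⟩ := hM _ h3 hAne hAM
    obtain ⟨c, hc, hac⟩ := Finset.mem_biUnion.1 ha
    set U' : V → Finset V := Function.update U c (insert b (U c)) with hU'
    have e1 : U' c = insert b (U c) := by rw [hU', Function.update_self]
    have e2 : ∀ d, d ≠ c → U' d = U d := fun d hd ↦ by rw [hU', Function.update_of_ne hd]
    have hbU : ∀ d ∈ I, b ∉ U d := fun d hd hbd ↦ hbA (Finset.mem_biUnion.2 ⟨d, hd, hbd⟩)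
    have e3 : I.biUnion U' = insert b (I.biUnion U) := by
      ext x
      simp only [Finset.mem_biUnion, Finset.mem_insert]
      constructor
      · rintro ⟨d, hd, hx⟩
        by_cases hdc : d = c
        · subst hdc
          rw [e1, Finset.mem_insert] at hx
          rcases hx with hx | hx
          · exact Or.inl hx
          · exact Or.inr ⟨d, hd, hx⟩
        · rw [e2 d hdc] at hx
          exact Or.inr ⟨d, hd, hx⟩
      · rintro (hx | ⟨d, hd, hx⟩)
        · exact ⟨c, hc, by rw [e1, hx]; exact Finset.mem_insert_self _ _⟩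
        · by_cases hdc : d = c
          · subst hdc
            exact ⟨d, hd, by rw [e1]; exact Finset.mem_insert_of_mem hx⟩
          · exact ⟨d, hd, by rw [e2 d hdc]; exact hx⟩
    refine ih U' ?_ ?_ ?_ ?_
    · rw [e3, Finset.sdiff_insert, Finset.card_erase_of_mem (Finset.mem_sdiff.2 ⟨hb, hbA⟩), h0]
      omega
    · intro d hd
      by_cases hdc : d = c
      · subst hdc
        rw [e1]
        exact ⟨(h1 d hd).1.trans (Finset.subset_insert _ _), (h1 d hd).2.insert hac hab⟩
      · rw [e2 d hdc]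
        exact h1 d hd
    · intro d hd f hf hdf
      by_cases hdc : d = c
      · subst hdc
        rw [e1, e2 f (Ne.symm hdf), Finset.disjoint_insert_left]
        exact ⟨hbU f hf, h2 d hd f hf hdf⟩
      · by_cases hfc : f = c
        · subst hfc
          rw [e1, e2 d hdc, Finset.disjoint_insert_right]
          exact ⟨hbU d hd, h2 d hd f hf hdf⟩
        · rw [e2 d hdc, e2 f hfc]
          exact h2 d hd f hf hdf
    · rw [e3]
      exact Finset.insert_subset hb h3

/-- Maximal family: among the families `U` with `K c ⊆ U c ⊆ M`, `U c` connected and pairwise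
disjoint, where `M = T ∪ I.biUnion K` (connected by `Conn.biUnion`), take one with
`|I.biUnion U|` maximal.  Then `I.biUnion U = M`: otherwise there is an edge from `u ∈ U c` to
`v ∈ M \ I.biUnion U`, and `v` can be added to `U c`. -/
theorem exists_partition {T I : Finset V} {K : V → Finset V} (hT : Conn G T)
    (hI : I.Nonempty) (hK : ∀ c ∈ I, Conn G (K c)) (hm : ∀ c ∈ I, (K c ∩ T).Nonempty)
    (hd : ∀ c ∈ I, ∀ d ∈ I, c ≠ d → Disjoint (K c) (K d)) :
    ∃ U : V → Finset V, (∀ c ∈ I, K c ⊆ U c ∧ Conn G (U c)) ∧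
      (∀ c ∈ I, ∀ d ∈ I, c ≠ d → Disjoint (U c) (U d)) ∧
      I.biUnion U = T ∪ I.biUnion K := by
  obtain ⟨c, hc⟩ := hI
  obtain ⟨x, hx⟩ := hm c hc
  exact s9a_step (hT.biUnion I K hK hm)
    ⟨x, Finset.mem_biUnion.2 ⟨c, hc, (Finset.mem_inter.1 hx).1⟩⟩ _ K rfl
    (fun d hd ↦ ⟨Finset.Subset.refl _, hK d hd⟩) hd Finset.subset_union_right

end H61L
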