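import Pool.Agent.Lib.H61L.Base

/-! # Chunk S9b of board h61l: rooted spanning trees. -/

open Classical H47G

namespace H61L

variable {V : Type}

/-- A rooted spanning tree of a connected finite relation: take a maximal `J ⊆ I` which contains
`ρ` and has functions `p`, `h` as wanted on `J`; if `J ≠ I`, `hR` gives `c ∈ J`, `d ∈ I \ J` with
`Rel d c`; put `p d = c`, `h d = h c + 1`. -/
theorem exists_spanning {I : Finset V} (hI : I.Nonempty) (Rel : V → V → Prop)
    (hR : ∀ J ⊆ I, J.Nonempty → J ≠ I → ∃ c ∈ J, ∃ d ∈ I, d ∉ J ∧ Rel d c) :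
    ∃ (p : V → V) (h : V → ℕ) (ρ : V), ρ ∈ I ∧
      ∀ c ∈ I, c ≠ ρ → p c ∈ I ∧ h (p c) < h c ∧ Rel c (p c) := by
  obtain ⟨ρ, hρ⟩ := hI
  -- good sets
  let Good : Finset V → Prop := fun J => ρ ∈ J ∧ ∃ (p : V → V) (h : V → ℕ),
    ∀ c ∈ J, c ≠ ρ → p c ∈ J ∧ h (p c) < h c ∧ Rel c (p c)
  have h0 : ({ρ} : Finset V) ∈ I.powerset.filter Good := by
    refine Finset.mem_filter.2 ⟨Finset.mem_powerset.2 (Finset.singleton_subset_iff.2 hρ),
      Finset.mem_singleton_self ρ, fun c => c, fun _ => 0, ?_⟩
    intro c hc hne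
    exact absurd (Finset.mem_singleton.1 hc) hne
  obtain ⟨J, hJ, hmax⟩ := (I.powerset.filter Good).exists_max_image Finset.card ⟨_, h0⟩
  obtain ⟨hJI, hρJ, p, h, hp⟩ := Finset.mem_filter.1 hJ
  have hJI := Finset.mem_powerset.1 hJI
  by_cases hJe : J = I
  · subst hJe
    exact ⟨p, h, ρ, hρ, hp⟩
  · exfalso
    obtain ⟨c, hc, d, hd, hdJ, hrel⟩ := hR J hJI ⟨ρ, hρJ⟩ hJe
    have hgood : insert d J ∈ I.powerset.filter Good := by
      refine Finset.mem_filter.2 ⟨Finset.mem_powerset.2 (Finset.insert_subset hd hJI),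
        Finset.mem_insert_of_mem hρJ, Function.update p d c,
        Function.update h d (h c + 1), ?_⟩
      intro x hx hne
      have hcd : c ≠ d := fun hcd => hdJ (hcd ▸ hc)
      by_cases hxd : x = d
      · subst hxd
        refine ⟨?_, ?_, ?_⟩
        · rw [Function.update_self]
          exact Finset.mem_insert_of_mem hc
        · rw [Function.update_self, Function.update_self, Function.update_of_ne hcd]
          exact Nat.lt_succ_self _
        · rw [Function.update_self]
          exact hrel
      · have hxJ : x ∈ J := (Finset.mem_insert.1 hx).resolve_left hxd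
        obtain ⟨h1, h2, h3⟩ := hp x hxJ hne
        have hpd : p x ≠ d := fun h => hdJ (h ▸ h1)
        refine ⟨?_, ?_, ?_⟩
        · rw [Function.update_of_ne hxd]
          exact Finset.mem_insert_of_mem h1
        · rw [Function.update_of_ne hxd, Function.update_of_ne hpd, Function.update_of_ne hxd]
          exact h2
        · rw [Function.update_of_ne hxd]
          exact h3
    have hcard := hmax _ hgood
    rw [Finset.card_insert_of_notMem hdJ] at hcard
    omega

end H61L
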