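import Pool.Agent.Lib.H61L.S1
import Pool.Agent.Lib.H61L.S5
import Pool.Agent.Lib.H61L.S6
import Pool.Agent.Lib.H61L.S7
import Pool.Agent.Lib.H61L.S8
import Pool.Agent.Lib.H61L.S9a
import Pool.Agent.Lib.H61L.S9b
import Pool.Agent.Lib.H61L.S10
import Pool.Agent.Lib.H61L.S11
import Pool.Agent.Lib.H61L.S12

/-!
# Linking a small and a large set: the assembly

Let `S₁`, `S₂` be disjoint vertex sets, `i = |S₁|`, `j = |S₂|`, of an `r`-connected graph.  Take
a smallest connected set `T` which contains `S₂` and avoids `S₁`.  A connected set `Q` outside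
`T ∪ S₁` has at most `j + |Q|` neighbours in `T`.  In `Y = V \ (T ∪ S₁)` take a smallest set `B`
with at most `2k` neighbours in `Y`; `B` with its neighbours is knit for sets of at most `k`
vertices of `B` (massed pairs), and by counting many vertices of `T` have at least `k`
neighbours in `B`.  Each vertex of `S₁` gets `μ` private neighbours; these and `S₂` are linked
by disjoint paths to `B` or to vertices of `T` with many neighbours in `B`.  The paths which
meet `T` cut `T` into pieces along a tree; choosing for each vertex of `S₁` the private neighbour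
whose path has the fewest children in the tree, the rest of the pieces falls into at most
`i + 1 + (j - 1) / μ` classes, and all classes are joined through `B`, and so are the `i` paths
of `S₁`.
-/

open Classical H47G

namespace H61L

variable {V : Type} [Fintype V] {G : SimpleGraph V} {r : ℕ}

private theorem mn_card_le {i j μ R I : ℕ} (hμ : 1 ≤ μ) (hj : 1 ≤ j) (h : μ * R ≤ μ + (I - 1))
    (hI : I ≤ j + i * μ) : R ≤ i + 1 + (j - 1) / μ := by
  by_contra hlt
  push Not at hlt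
  obtain ⟨s, rfl⟩ : ∃ s, R = i + 1 + s := ⟨R - (i + 1), by
    have : i + 1 ≤ R := (Nat.le_add_right _ _).trans hlt.le
    omega⟩
  have h1 : (j - 1) / μ < s := Nat.lt_of_add_lt_add_left hlt
  rw [Nat.div_lt_iff_lt_mul (by omega)] at h1
  have h2 : μ * (i + 1 + s) = i * μ + μ + s * μ := by ring
  omega

private theorem mn_count {i j μ k r h F : ℕ} (hi : 1 ≤ i) (hμ : 1 ≤ μ) (hk : 1 ≤ k)
    (hh : k ≤ h) (hc : j + i * μ + i + 4 * k ≤ r + 3)
    (hfat : h * (r + 1) + (k - 1) * F ≤ h * F + (k - 1) * (j + h) + h * (h + 2 * k + i)) :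
    j + i * μ ≤ F + h := by
  by_contra hlt
  push Not at hlt
  have hm : 1 ≤ i * μ := Nat.one_le_iff_ne_zero.2 (Nat.mul_ne_zero (by omega) (by omega))
  generalize i * μ = m at *
  obtain ⟨c, rfl⟩ : ∃ c, k = c + 1 := ⟨k - 1, by omega⟩
  obtain ⟨e, he⟩ : ∃ e, j + m = F + h + 1 + e := ⟨j + m - (F + h + 1), by omega⟩
  obtain ⟨e', he'⟩ : ∃ e', r + 3 = j + m + i + 4 * (c + 1) + e' :=
    ⟨r + 3 - (j + m + i + 4 * (c + 1)), by omega⟩
  rw [Nat.add_sub_cancel] at hfat
  have hr : (r : ℤ) = j + m + i + 4 * (c + 1) + e' - 3 := by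
    have : (r : ℤ) + 3 = j + m + i + 4 * (c + 1) + e' := by exact_mod_cast he'
    linarith
  have hF : (F : ℤ) = j + m - h - 1 - e := by
    have : (j : ℤ) + m = F + h + 1 + e := by exact_mod_cast he
    linarith
  have hfat' : (h : ℤ) * (r + 1) + c * F ≤ h * F + c * (j + h) + h * (h + 2 * (c + 1) + i) := by
    exact_mod_cast hfat
  rw [hr, hF] at hfat'
  have h1 : (0 : ℤ) ≤ (h - c) * e := mul_nonneg (by
    have : (c : ℤ) + 1 ≤ h := by exact_mod_cast hh
    linarith) (by positivity)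
  have h2 : (0 : ℤ) ≤ c * (m - 1) := mul_nonneg (by positivity) (by
    have : (1 : ℤ) ≤ m := by exact_mod_cast hm
    linarith)
  have h3 : (0 : ℤ) ≤ h * e' := by positivity
  have h4 : (1 : ℤ) ≤ h := by
    have : (c : ℤ) + 1 ≤ h := by exact_mod_cast hh
    have : (0 : ℤ) ≤ c := by positivity
    linarith
  nlinarith

theorem link (hG : RConn G r) {S₁ S₂ : Finset V} (hd : Disjoint S₁ S₂) {k μ : ℕ}
    (hi : 1 ≤ S₁.card) (hj : 1 ≤ S₂.card) (hμ : 1 ≤ μ)
    (hk : 2 * S₁.card + 1 + (S₂.card - 1) / μ ≤ k)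
    (ha : 7 * k + S₂.card + 1 + S₁.card ≤ r)
    (hc : S₂.card + S₁.card * μ + S₁.card + 4 * k ≤ r + 3) :
    ∃ F₁ F₂ : Finset V, S₁ ⊆ F₁ ∧ S₂ ⊆ F₂ ∧ Disjoint F₁ F₂ ∧ Conn G F₁ ∧ Conn G F₂ := by
  have hk' : 2 * S₁.card + 1 ≤ k := (Nat.le_add_right _ _).trans hk
  have hb : S₂.card + S₁.card * μ + S₁.card + 2 * k ≤ r := by omega
  obtain ⟨T, hS⟩ := exists_setup hG hd (by omega)
  obtain ⟨B, hB⟩ := exists_region G (exists_outside hS (by omega) (by omega)) k
  set Y := (Finset.univ : Finset V) \ (T ∪ S₁) with hY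
  set N := nb G Y B with hN
  have hdeg : ∀ y ∈ Y, r - (S₂.card + 1) - S₁.card ≤ (nb G Y {y}).card := fun y hy ↦ by
    have := hS.degree hy
    rw [← hY] at this
    omega
  have hBc : r - (S₂.card + 1) - S₁.card + 1 ≤ B.card + 2 * k := hB.card_ge hdeg
  have hknit : ∀ X ⊆ B, X.card ≤ k → Knit G (B ∪ N) X := fun X hX hXc ↦
    region_knit hB hdeg (by omega) (by omega) hX hXc
  have hfat := fat_bound hS (by omega) hB
  have hNc : N.card ≤ 2 * k := hB.bd
  -- there are enough targets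
  have hcount : S₂.card + S₁.card * μ ≤ (fat G T B k).card + B.card :=
    mn_count hi hμ (by omega) (by omega) hc hfat
  -- membership facts
  have hYT : ∀ y ∈ Y, y ∉ T := fun y hy h ↦
    (Finset.mem_sdiff.1 hy).2 (Finset.mem_union_left _ h)
  have hYS : ∀ y ∈ Y, y ∉ S₁ := fun y hy h ↦
    (Finset.mem_sdiff.1 hy).2 (Finset.mem_union_right _ h)
  have hNY : ∀ y ∈ N, y ∈ Y := fun y hy ↦ nb_subset hy
  have hBY : ∀ y ∈ B, y ∈ Y := fun y hy ↦ hB.sub hy
  have hNB : ∀ y ∈ N, y ∉ B := fun y hy ↦ (mem_nb.1 hy).2.1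
  have hTS : ∀ y ∈ T, y ∉ S₁ := fun y hy h ↦ Finset.disjoint_left.1 hS.dT hy h
  have hST : ∀ y ∈ S₂, y ∈ T := fun y hy ↦ hS.sT hy
  have hBNY : ∀ y ∈ B ∪ N, y ∈ Y := fun y hy ↦ by
    rcases Finset.mem_union.1 hy with h | h
    · exact hBY y h
    · exact hNY y h
  -- the private neighbours
  obtain ⟨Ax, hAx, hAxd⟩ := exists_sources hG (S₁ := S₁) (F := S₁ ∪ S₂ ∪ N) μ
    (Finset.subset_union_left.trans Finset.subset_union_left) (by
      have h1 : (S₁ ∪ S₂ ∪ N).card ≤ S₁.card + S₂.card + N.card :=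
        (Finset.card_union_le _ _).trans (Nat.add_le_add_right (Finset.card_union_le _ _) _)
      omega)
  have hAxF : ∀ x ∈ S₁, ∀ y ∈ Ax x, y ∉ S₁ ∧ y ∉ S₂ ∧ y ∉ N := by
    intro x hx y hy
    have h1 := Finset.disjoint_left.1 (hAx x hx).2.1 hy
    simp only [Finset.mem_union, not_or] at h1
    exact ⟨h1.1.1, h1.1.2, h1.2⟩
  set A := S₂ ∪ S₁.biUnion Ax with hA
  have hAcard : A.card = S₂.card + S₁.card * μ := by
    rw [hA, Finset.card_union_of_disjoint, Finset.card_biUnion fun x hx y hy hxy ↦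
      hAxd x hx y hy hxy, Finset.sum_congr rfl (fun x hx ↦ (hAx x hx).1), Finset.sum_const,
      smul_eq_mul]
    rw [Finset.disjoint_left]
    intro y hy hy'
    obtain ⟨x, hx, hxy⟩ := Finset.mem_biUnion.1 hy'
    exact (hAxF x hx y hxy).2.1 hy
  have hAR : Disjoint A (S₁ ∪ N) := by
    rw [Finset.disjoint_left]
    intro y hy hy'
    rcases Finset.mem_union.1 hy with h | h
    · rcases Finset.mem_union.1 hy' with h' | h'
      · exact hTS y (hST y h) h'
      · exact hYT y (hNY y h') (hST y h)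
    · obtain ⟨x, hx, hxy⟩ := Finset.mem_biUnion.1 h
      obtain ⟨h1, h2, h3⟩ := hAxF x hx y hxy
      rcases Finset.mem_union.1 hy' with h' | h'
      · exact h1 h'
      · exact h3 h'
  set Θ := fat G T B k ∪ B with hΘ
  have hfT : ∀ y ∈ fat G T B k, y ∈ T := fun y hy ↦ (mem_fat.1 hy).1
  have hΘR : Disjoint Θ (S₁ ∪ N) := by
    rw [Finset.disjoint_left]
    intro y hy hy'
    rcases Finset.mem_union.1 hy with h | h
    · rcases Finset.mem_union.1 hy' with h' | h'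
      · exact hTS y (hfT y h) h'
      · exact hYT y (hNY y h') (hfT y h)
    · rcases Finset.mem_union.1 hy' with h' | h'
      · exact hYS y (hBY y h) h'
      · exact hNB y h' h
  have hΘcard : Θ.card = (fat G T B k).card + B.card := by
    rw [hΘ, Finset.card_union_of_disjoint]
    rw [Finset.disjoint_left]
    exact fun y hy hy' ↦ hYT y (hBY y hy') (hfT y hy)
  have hRcard : (S₁ ∪ N).card ≤ S₁.card + N.card := Finset.card_union_le _ _
  obtain ⟨K₀, θ, hKθ, hdisj⟩ := menger_system hG hAR hΘR (by omega) (by omega)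
  -- the paths
  set f : V → Finset V := fun a ↦ insert (θ a) (K₀ a) with hf
  set K : V → Finset V := fun a ↦ f a \ B with hK
  have hfd : ∀ a ∈ A, ∀ b ∈ A, a ≠ b → Disjoint (f a) (f b) := hdisj
  have hθf : ∀ a, θ a ∈ f a := fun a ↦ Finset.mem_insert_self _ _
  have hK₀B : ∀ a ∈ A, ∀ y ∈ K₀ a, y ∉ B := fun a ha y hy hyB ↦
    Finset.disjoint_left.1 (hKθ a ha).2.2.1 hy
      (Finset.mem_union_right _ (Finset.mem_union_right _ hyB))
  have hK₀R : ∀ a ∈ A, ∀ y ∈ K₀ a, y ∉ S₁ ∧ y ∉ N := fun a ha y hy ↦ by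
    have h1 := Finset.disjoint_left.1 (hKθ a ha).2.2.1 hy
    simp only [Finset.mem_union, not_or] at h1
    exact h1.1
  have hθΘ : ∀ a ∈ A, θ a ∈ Θ := fun a ha ↦ (hKθ a ha).1
  have hfR : ∀ a ∈ A, ∀ y ∈ f a, y ∉ S₁ ∧ y ∉ N := fun a ha y hy ↦ by
    rcases Finset.mem_insert.1 hy with h | h
    · have h1 := Finset.disjoint_left.1 hΘR (hθΘ a ha)
      rw [← h, Finset.mem_union, not_or] at h1
      exact h1
    · exact hK₀R a ha y h
  have hfB : ∀ a ∈ A, ∀ y ∈ f a, y ∈ B → y = θ a := fun a ha y hy hyB ↦ by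
    rcases Finset.mem_insert.1 hy with h | h
    · exact h
    · exact absurd hyB (hK₀B a ha y h)
  have haf : ∀ a ∈ A, a ∈ f a := fun a ha ↦ by
    rcases (hKθ a ha).2.2.2 with h | h
    · rw [hf]
      exact Finset.mem_insert.2 (Or.inl h.2.1.symm)
    · exact Finset.mem_insert_of_mem h.1
  have hfc : ∀ a ∈ A, Conn G (f a) := fun a ha ↦ by
    rcases (hKθ a ha).2.2.2 with h | ⟨h, q, hq, hqa⟩
    · have : f a = {θ a} := by simp [hf, h.2.2]
      rw [this]
      exact conn_singleton _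
    · exact (hKθ a ha).2.1.insert hq hqa
  have hKf : ∀ a, K a ⊆ f a := fun a ↦ Finset.sdiff_subset
  have hKB : ∀ a, ∀ y ∈ K a, y ∉ B := fun a y hy ↦ (Finset.mem_sdiff.1 hy).2
  have hK₀K : ∀ a ∈ A, K₀ a ⊆ K a := fun a ha y hy ↦
    Finset.mem_sdiff.2 ⟨Finset.mem_insert_of_mem hy, hK₀B a ha y hy⟩
  have hKc : ∀ a ∈ A, Conn G (K a) := fun a ha ↦ by
    by_cases hθB : θ a ∈ B
    · have : K a = K₀ a := by
        refine Finset.Subset.antisymm (fun y hy ↦ ?_) (hK₀K a ha)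
        rcases Finset.mem_insert.1 (hKf a hy) with h | h
        · exact absurd (h ▸ hθB) (hKB a y hy)
        · exact h
      rw [this]
      exact (hKθ a ha).2.1
    · have : K a = f a := by
        refine Finset.Subset.antisymm (hKf a) fun y hy ↦ Finset.mem_sdiff.2 ⟨hy, fun hyB ↦ ?_⟩
        exact hθB (hfB a ha y hy hyB ▸ hyB)
      rw [this]
      exact hfc a ha
  have hKd : ∀ a ∈ A, ∀ b ∈ A, a ≠ b → Disjoint (K a) (K b) := fun a ha b hb hab ↦
    (hfd a ha b hb hab).mono (hKf a) (hKf b)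
  -- the paths which meet `T`
  set I := A.filter fun a ↦ (K a ∩ T).Nonempty with hI
  have hIA : ∀ c ∈ I, c ∈ A := fun c hc ↦ (Finset.mem_filter.1 hc).1
  have hS₂K : ∀ σ ∈ S₂, σ ∈ K σ := fun σ hσ ↦
    Finset.mem_sdiff.2 ⟨haf σ (Finset.mem_union_left _ hσ), fun h ↦ hYT σ (hBY σ h) (hST σ hσ)⟩
  have hS₂I : ∀ σ ∈ S₂, σ ∈ I := fun σ hσ ↦ Finset.mem_filter.2
    ⟨Finset.mem_union_left _ hσ, σ, Finset.mem_inter.2 ⟨hS₂K σ hσ, hST σ hσ⟩⟩
  have hIne : I.Nonempty := by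
    obtain ⟨σ, hσ⟩ := Finset.card_pos.1 hj
    exact ⟨σ, hS₂I σ hσ⟩
  have hIm : ∀ c ∈ I, (K c ∩ T).Nonempty := fun c hc ↦ (Finset.mem_filter.1 hc).2
  obtain ⟨U, hU1, hU2, hU3⟩ := exists_partition hS.cT hIne (fun c hc ↦ hKc c (hIA c hc)) hIm
    (fun c hc d hd hcd ↦ hKd c (hIA c hc) d (hIA d hd) hcd)
  have hKne : ∀ c ∈ I, (K c).Nonempty := fun c hc ↦
    (hIm c hc).mono Finset.inter_subset_left
  have hUne : ∀ c ∈ I, (U c).Nonempty := fun c hc ↦ (hKne c hc).mono (hU1 c hc).1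
  have hUM : ∀ c ∈ I, ∀ y ∈ U c, y ∈ T ∪ I.biUnion K := fun c hc y hy ↦ by
    rw [← hU3]
    exact Finset.mem_biUnion.2 ⟨c, hc, hy⟩
  have hMc : Conn G (I.biUnion U) := by
    rw [hU3]
    exact hS.cT.biUnion I K (fun c hc ↦ hKc c (hIA c hc)) hIm
  obtain ⟨p, h, ρ, hρ, hp⟩ := exists_spanning hIne
    (fun c d ↦ ∃ u ∈ U c, ∃ w ∈ U d, G.Adj u w) (by
      intro J hJ hJn hJI
      obtain ⟨c₀, hc₀⟩ := hJn
      obtain ⟨d₀, hd₀, hd₀J⟩ : ∃ d ∈ I, d ∉ J := by
        by_contra hno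
        push Not at hno
        exact hJI (Finset.Subset.antisymm hJ hno)
      obtain ⟨a, ha, b, hb, hbA, hab⟩ := hMc (J.biUnion U)
        (Finset.biUnion_subset_biUnion_of_subset_left _ hJ)
        (by
          obtain ⟨u, hu⟩ := hUne c₀ (hJ hc₀)
          exact ⟨u, Finset.mem_biUnion.2 ⟨c₀, hc₀, hu⟩⟩)
        (by
          intro heq
          obtain ⟨u, hu⟩ := hUne d₀ hd₀
          have h1 : u ∈ J.biUnion U := by
            rw [heq]
            exact Finset.mem_biUnion.2 ⟨d₀, hd₀, hu⟩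
          obtain ⟨c, hc, huc⟩ := Finset.mem_biUnion.1 h1
          refine Finset.disjoint_left.1 (hU2 c (hJ hc) d₀ hd₀ ?_) huc hu
          rintro rfl
          exact hd₀J hc)
      obtain ⟨c, hc, hac⟩ := Finset.mem_biUnion.1 ha
      obtain ⟨d, hd', hbd⟩ := Finset.mem_biUnion.1 hb
      refine ⟨c, hc, d, hd', fun hdJ ↦ hbA (Finset.mem_biUnion.2 ⟨d, hdJ, hbd⟩), b, hbd, a, hac,
        hab.symm⟩)
  obtain ⟨a, ha1, ha2⟩ := choose_min (p := p) hρ hμ (fun x hx ↦ (hAx x hx).1) hAxd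
  set D := S₁.image a with hD
  set R := (I \ D).filter (fun c ↦ c = ρ ∨ p c ∈ D) with hR
  have hDA : ∀ d ∈ D, d ∈ A ∧ d ∉ S₂ := fun d hd ↦ by
    obtain ⟨x, hx, rfl⟩ := Finset.mem_image.1 hd
    exact ⟨Finset.mem_union_right _ (Finset.mem_biUnion.2 ⟨x, hx, ha1 x hx⟩),
      (hAxF x hx _ (ha1 x hx)).2.1⟩
  have hRI : ∀ c ∈ R, c ∈ I ∧ c ∉ D := fun c hc ↦ by
    have := Finset.mem_sdiff.1 (Finset.mem_filter.1 hc).1
    exact this
  have hRA : ∀ c ∈ R, c ∈ A := fun c hc ↦ hIA c (hRI c hc).1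
  have hEcard : (D ∪ R).card ≤ k := by
    have h1 : (D ∪ R).card ≤ D.card + R.card := Finset.card_union_le _ _
    have h2 : D.card ≤ S₁.card := Finset.card_image_le
    have h3 : I.card ≤ A.card := Finset.card_filter_le _ _
    have h4 := mn_card_le hμ hj ha2 (h3.trans hAcard.le)
    omega
  obtain ⟨Φ, hΦ1, hΦ2⟩ := exists_classes (D := D) (fun c hc ↦ (hU1 c hc).2) hUne hp
  -- the entrances to `B`
  have hEA : ∀ c ∈ D ∪ R, c ∈ A := fun c hc ↦ by
    rcases Finset.mem_union.1 hc with h | h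
    · exact (hDA c h).1
    · exact hRA c h
  obtain ⟨b, hb1, hb2⟩ := hall_choice hEcard (θ := θ)
    (t := fun c ↦ if θ c ∈ B then {θ c} else B.filter fun y ↦ G.Adj (θ c) y)
    (by
      intro c hc d hd' heq
      by_contra hne
      exact Finset.disjoint_left.1 (hfd c (hEA c hc) d (hEA d hd') hne) (hθf c)
        (heq ▸ hθf d))
    (by
      intro c hc
      by_cases hθB : θ c ∈ B
      · left
        simp [hθB]
      · right
        rw [if_neg hθB]
        rcases Finset.mem_union.1 (hθΘ c (hEA c hc)) with h | h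
        · exact (mem_fat.1 h).2
        · exact absurd h hθB)
  have hbB : ∀ c ∈ D ∪ R, θ c ∈ B → b c = θ c := fun c hc hθB ↦ by
    have := hb1 c hc
    simpa [hθB] using this
  have hbB' : ∀ c ∈ D ∪ R, θ c ∉ B → b c ∈ B ∧ G.Adj (θ c) (b c) := fun c hc hθB ↦ by
    have := hb1 c hc
    simpa [hθB] using this
  have hbin : ∀ c ∈ D ∪ R, b c ∈ B := fun c hc ↦ by
    by_cases hθB : θ c ∈ B
    · rw [hbB c hc hθB]
      exact hθB
    · exact (hbB' c hc hθB).1
  obtain ⟨F₁, F₂, f1, f2, f3, f4, f5, f6, f7⟩ := hknit ((D ∪ R).image b)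
    (by
      intro y hy
      obtain ⟨c, hc, rfl⟩ := Finset.mem_image.1 hy
      exact hbin c hc)
    (Finset.card_image_le.trans hEcard) (D.image b)
    (Finset.image_subset_image Finset.subset_union_left)
  have hDF : ∀ d ∈ D, b d ∈ F₁ := fun d hd ↦ f4 (Finset.mem_image_of_mem b hd)
  have hRF : ∀ c ∈ R, b c ∈ F₂ := fun c hc ↦ by
    refine f5 (Finset.mem_sdiff.2 ⟨Finset.mem_image_of_mem b (Finset.mem_union_right _ hc), ?_⟩)
    intro hmem
    obtain ⟨d, hd', hdc⟩ := Finset.mem_image.1 hmem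
    have := hb2 d (Finset.mem_union_left _ hd') c (Finset.mem_union_right _ hc) hdc
    exact (hRI c hc).2 (this ▸ hd')
  -- where the classes are
  have hUB : ∀ c ∈ I, ∀ y ∈ U c, y ∉ B ∪ N ∧ y ∉ S₁ := fun c hc y hy ↦ by
    rcases Finset.mem_union.1 (hUM c hc y hy) with h | h
    · exact ⟨fun h' ↦ hYT y (hBNY y h') h, hTS y h⟩
    · obtain ⟨c', hc', hyc'⟩ := Finset.mem_biUnion.1 h
      obtain ⟨h1, h2⟩ := hfR c' (hIA c' hc') y (hKf c' hyc')
      refine ⟨fun h' ↦ ?_, h1⟩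
      rcases Finset.mem_union.1 h' with h'' | h''
      · exact hKB c' y hyc' h''
      · exact h2 h''
  have hΦU : ∀ c ∈ R, ∀ y ∈ Φ c, ∃ c' ∈ I, c' ∉ D ∧ y ∈ U c' := fun c hc y hy ↦ by
    obtain ⟨c', hc', hyc'⟩ := Finset.mem_biUnion.1 ((hΦ1 c hc).2.2 hy)
    exact ⟨c', (Finset.mem_sdiff.1 hc').1, (Finset.mem_sdiff.1 hc').2, hyc'⟩
  refine ⟨F₁ ∪ S₁.biUnion (fun x ↦ insert x (insert (b (a x)) (f (a x)))),
    F₂ ∪ R.biUnion (fun c ↦ insert (b c) (Φ c)), ?_, ?_, ?_, ?_, ?_⟩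
  · intro x hx
    exact Finset.mem_union_right _ (Finset.mem_biUnion.2 ⟨x, hx, Finset.mem_insert_self _ _⟩)
  · intro σ hσ
    obtain ⟨d, hdR, hdU⟩ := hΦ2 σ (Finset.mem_sdiff.2 ⟨hS₂I σ hσ, fun h ↦ (hDA σ h).2 hσ⟩)
    exact Finset.mem_union_right _ (Finset.mem_biUnion.2 ⟨d, hdR, Finset.mem_insert_of_mem
      (hdU ((hU1 σ (hS₂I σ hσ)).1 (hS₂K σ hσ)))⟩)
  · rw [Finset.disjoint_left]
    intro v hv hv'
    -- simplify the membership in the second set
    have hv2 : v ∈ F₂ ∨ ∃ c ∈ R, v ∈ Φ c := by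
      rcases Finset.mem_union.1 hv' with h | h
      · exact Or.inl h
      · obtain ⟨c, hc, hvc⟩ := Finset.mem_biUnion.1 h
        rcases Finset.mem_insert.1 hvc with h' | h'
        · exact Or.inl (h' ▸ hRF c hc)
        · exact Or.inr ⟨c, hc, h'⟩
    have hv1 : v ∈ F₁ ∨ v ∈ S₁ ∨ ∃ d ∈ D, v ∈ f d := by
      rcases Finset.mem_union.1 hv with h | h
      · exact Or.inl h
      · obtain ⟨x, hx, hvx⟩ := Finset.mem_biUnion.1 h
        rcases Finset.mem_insert.1 hvx with h' | h'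
        · exact Or.inr (Or.inl (h' ▸ hx))
        · rcases Finset.mem_insert.1 h' with h'' | h''
          · exact Or.inl (h'' ▸ hDF _ (Finset.mem_image_of_mem a hx))
          · exact Or.inr (Or.inr ⟨a x, Finset.mem_image_of_mem a hx, h''⟩)
    rcases hv1 with h1 | h1 | ⟨d, hdD, hvd⟩
    · rcases hv2 with h2 | ⟨c, hc, hvc⟩
      · exact Finset.disjoint_left.1 f3 h1 h2
      · obtain ⟨c', hc', -, hvc'⟩ := hΦU c hc v hvc
        exact (hUB c' hc' v hvc').1 (f1 h1)
    · rcases hv2 with h2 | ⟨c, hc, hvc⟩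
      · exact hYS v (hBNY v (f2 h2)) h1
      · obtain ⟨c', hc', -, hvc'⟩ := hΦU c hc v hvc
        exact (hUB c' hc' v hvc').2 h1
    · rcases hv2 with h2 | ⟨c, hc, hvc⟩
      · rcases Finset.mem_union.1 (f2 h2) with h3 | h3
        · have h4 := hfB d (hDA d hdD).1 v hvd h3
          have h5 := hbB d (Finset.mem_union_left _ hdD) (h4 ▸ h3)
          exact Finset.disjoint_left.1 f3 (hDF d hdD) (by rw [h5, ← h4]; exact h2)
        · exact (hfR d (hDA d hdD).1 v hvd).2 h3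
      · obtain ⟨c', hc', hc'D, hvc'⟩ := hΦU c hc v hvc
        have hvB : v ∉ B := fun h3 ↦ (hUB c' hc' v hvc').1 (Finset.mem_union_left _ h3)
        have hvK : v ∈ K d := Finset.mem_sdiff.2 ⟨hvd, hvB⟩
        by_cases hdI : d ∈ I
        · refine Finset.disjoint_left.1 (hU2 d hdI c' hc' ?_) ((hU1 d hdI).1 hvK) hvc'
          rintro rfl
          exact hc'D hdD
        · have hvT : v ∉ T := fun hvT ↦ hdI (Finset.mem_filter.2
            ⟨(hDA d hdD).1, v, Finset.mem_inter.2 ⟨hvK, hvT⟩⟩)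
          rcases Finset.mem_union.1 (hUM c' hc' v hvc') with h3 | h3
          · exact hvT h3
          · obtain ⟨c'', hc'', hvc''⟩ := Finset.mem_biUnion.1 h3
            refine Finset.disjoint_left.1 (hKd d (hDA d hdD).1 c'' (hIA c'' hc'') ?_) hvK hvc''
            rintro rfl
            exact hdI hc''
  · refine f6.biUnion S₁ _ (fun x hx ↦ ?_) fun x hx ↦ ?_
    · have hxD : a x ∈ D := Finset.mem_image_of_mem a hx
      have hxA := (hDA _ hxD).1
      have h1 : Conn G (insert (b (a x)) (f (a x))) := by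
        by_cases hθB : θ (a x) ∈ B
        · rw [hbB _ (Finset.mem_union_left _ hxD) hθB, Finset.insert_eq_of_mem (hθf _)]
          exact hfc _ hxA
        · exact (hfc _ hxA).insert (hθf _) (hbB' _ (Finset.mem_union_left _ hxD) hθB).2
      exact h1.insert (Finset.mem_insert_of_mem (haf _ hxA)) ((hAx x hx).2.2 _ (ha1 x hx)).symm
    · exact ⟨b (a x), Finset.mem_inter.2 ⟨Finset.mem_insert_of_mem (Finset.mem_insert_self _ _),
        hDF _ (Finset.mem_image_of_mem a hx)⟩⟩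
  · refine f7.biUnion R _ (fun c hc ↦ ?_) fun c hc ↦ ?_
    · have hcI := (hRI c hc).1
      have hcA := hRA c hc
      by_cases hθB : θ c ∈ B
      · rw [hbB _ (Finset.mem_union_right _ hc) hθB]
        rcases (hKθ c hcA).2.2.2 with h1 | ⟨h1, q, hq, hqc⟩
        · exfalso
          obtain ⟨y, hy⟩ := hKne c hcI
          rcases Finset.mem_insert.1 (hKf c hy) with h2 | h2
          · exact hKB c y hy (h2 ▸ hθB)
          · rw [h1.2.2] at h2
            exact absurd h2 (Finset.notMem_empty y)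
        · exact (hΦ1 c hc).1.insert ((hΦ1 c hc).2.1 ((hU1 c hcI).1 (hK₀K c hcA hq))) hqc
      · have hθK : θ c ∈ K c := Finset.mem_sdiff.2 ⟨hθf c, hθB⟩
        exact (hΦ1 c hc).1.insert ((hΦ1 c hc).2.1 ((hU1 c hcI).1 hθK))
          (hbB' c (Finset.mem_union_right _ hc) hθB).2
    · exact ⟨b c, Finset.mem_inter.2 ⟨Finset.mem_insert_self _ _, hRF c hc⟩⟩

end H61L
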