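import Pool.Agent.Lib.H61L.Base

/-! # Chunks S1, S3 of board h61l: the smallest connected set `T`. -/

open Classical H47G

namespace H61L

variable {V : Type} [Fintype V] {G : SimpleGraph V} {r : ℕ} {S₁ S₂ T : Finset V}

/-- Existence of `T`: among all connected sets containing `S₂` and avoiding `S₁` (the complement
of `S₁` is one, by `RConn.conn_compl`) take one of least cardinality. -/
theorem exists_setup (hG : RConn G r) (hd : Disjoint S₁ S₂) (h : S₁.card < r) :
    ∃ T, Setup G r S₁ S₂ T := by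
  set F : Finset (Finset V) := (Finset.univ : Finset (Finset V)).filter
    (fun T' ↦ S₂ ⊆ T' ∧ Disjoint T' S₁ ∧ Conn G T') with hF
  have hne : F.Nonempty := by
    refine ⟨Finset.univ \ S₁, ?_⟩
    rw [hF, Finset.mem_filter]
    refine ⟨Finset.mem_univ _, ?_, Finset.sdiff_disjoint, hG.conn_compl h⟩
    intro x hx
    exact Finset.mem_sdiff.2 ⟨Finset.mem_univ _, fun h1 ↦ Finset.disjoint_left.1 hd h1 hx⟩
  obtain ⟨T, hT, hmin⟩ := Finset.exists_min_image F Finset.card hne
  rw [hF, Finset.mem_filter] at hT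
  refine ⟨T, hG, hd, hT.2.1, hT.2.2.1, hT.2.2.2, fun T' h1 h2 h3 ↦ hmin T' ?_⟩
  rw [hF, Finset.mem_filter]
  exact ⟨Finset.mem_univ _, h1, h2, h3⟩

/-- `T ∪ S₁` is not everything: otherwise `|T| > r - |S₁| ≥ |S₂|`, so there is
`t ∈ T \ S₂`, and `T \ {t} = univ \ (insert t S₁)` is connected (`RConn.conn_compl`), which
contradicts `Setup.min`. -/
theorem exists_outside (hS : Setup G r S₁ S₂ T) (h1 : S₁.card + S₂.card ≤ r)
    (h2 : S₁.card + 1 < r) : ((Finset.univ : Finset V) \ (T ∪ S₁)).Nonempty := by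
  by_contra hne
  rw [Finset.not_nonempty_iff_eq_empty, Finset.sdiff_eq_empty_iff_subset] at hne
  have hcard : Fintype.card V ≤ T.card + S₁.card := by
    rw [← Finset.card_univ]
    exact (Finset.card_le_card hne).trans (Finset.card_union_le _ _)
  have hc := hS.conn.card
  have hlt : S₂.card < T.card := by omega
  obtain ⟨t, htT, htS⟩ := Finset.exists_mem_notMem_of_card_lt_card hlt
  have htS1 : t ∉ S₁ := fun h ↦ Finset.disjoint_left.1 hS.dT htT h
  have hZ : (insert t S₁).card < r := lt_of_le_of_lt (Finset.card_insert_le _ _) h2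
  have h3 := hS.min (Finset.univ \ insert t S₁) (by
    intro x hx
    refine Finset.mem_sdiff.2 ⟨Finset.mem_univ _, fun hx1 ↦ ?_⟩
    rcases Finset.mem_insert.1 hx1 with h | h
    · exact htS (h ▸ hx)
    · exact Finset.disjoint_left.1 hS.d12 h hx) (by
    rw [Finset.disjoint_left]
    intro x hx hx1
    exact (Finset.mem_sdiff.1 hx).2 (Finset.mem_insert_of_mem hx1)) (hS.conn.conn_compl hZ)
  have h4 : (Finset.univ \ insert t S₁ : Finset V) ⊂ T := by
    refine ⟨fun x hx ↦ ?_, fun hsub ↦ ?_⟩
    · have hx2 := (Finset.mem_sdiff.1 hx).2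
      rcases Finset.mem_union.1 (hne (Finset.mem_univ x)) with h | h
      · exact h
      · exact absurd (Finset.mem_insert_of_mem h) hx2
    · exact (Finset.mem_sdiff.1 (hsub htT)).2 (Finset.mem_insert_self _ _)
  exact absurd (Finset.card_lt_card h4) (not_lt.2 h3)

end H61L
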