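import Mathlib

/-! # Chunk S14b of board h61l: arithmetic (square root version). -/

namespace H61L

private theorem fin_check : ∀ C < 105, ∀ i < 3, 1 ≤ i → 37 * i + 1 ≤ C →
    C ^ 2 ≤ 40 * i * (((C - 19 * i - 10) / 9 + 1) * ((C - 9 * i - 1 - 4 * ((C - 19 * i - 10) / 9)) / i)) := by
  decide +kernel

private theorem size_bound {i j C : ℕ} (hi : 1 ≤ i) (hij : i ≤ j) (h : 40 * i * j ≤ C ^ 2)
    (hC : C < j + 2 * i) : 37 * i + 1 ≤ C := by
  by_contra hlt
  have h1 : C ≤ 37 * i := by omega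
  have h2 : 40 * i * i ≤ C ^ 2 := (Nat.mul_le_mul_left _ hij).trans h
  have h3 : 6 * i ≤ C := by
    by_contra h4
    have h5 : C ≤ 6 * i := by omega
    have : C ^ 2 ≤ (6 * i) ^ 2 := Nat.pow_le_pow_left h5 2
    nlinarith
  zify at *
  nlinarith [mul_nonneg (sub_nonneg.2 h3) (sub_nonneg.2 h1), mul_pos (lt_of_lt_of_le one_pos hi)
    (sub_pos.2 hC)]

theorem arithmetic_sqrt {i j C : ℕ} (hi : 1 ≤ i) (hij : i ≤ j) (h : 40 * i * j ≤ C ^ 2)
    (hC : C < j + 2 * i) :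
    ∃ k μ : ℕ, 1 ≤ μ ∧ 2 * i + 1 + (j - 1) / μ ≤ k ∧ 9 * k + 1 + i ≤ C ∧
      i * μ + i + 2 * k ≤ C ∧ i * μ + 4 * k + i ≤ C + 3 := by
  have h37 := size_bound hi hij h hC
  set q := (C - 19 * i - 10) / 9 with hq
  set μ := (C - 9 * i - 1 - 4 * q) / i with hμ
  have q1 : 9 * q ≤ C - 19 * i - 10 := Nat.mul_div_le _ _
  have q2 : C - 19 * i - 10 < 9 * q + 9 := by omega
  have m1 : i * μ ≤ C - 9 * i - 1 - 4 * q := Nat.mul_div_le _ _
  have m2 : C - 9 * i - 1 - 4 * q < i * μ + i := by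
    have := Nat.lt_mul_div_succ (C - 9 * i - 1 - 4 * q) (show 0 < i by omega)
    rw [← hμ] at this
    linarith
  have key : C ^ 2 ≤ 40 * i * ((q + 1) * μ) := by
    rcases Nat.lt_or_ge C 105 with h5 | h5
    · exact fin_check C h5 i (by omega) hi h37
    · have e1 : C ≤ 9 * (q + 1) + 19 * i + 9 := by omega
      have e2 : C ≤ 10 * i + 4 * q + i * μ := by omega
      have e3 : 9 * q + 19 * i + 10 ≤ C := by omega
      have e4 : (C : ℤ) ^ 2 ≤ 40 * i * ((q + 1) * μ) := by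
        have f1 : (C : ℤ) - 19 * i - 9 ≤ 9 * (q + 1) := by zify at e1; linarith
        have f2 : (5 * C - 14 * i + 40 : ℤ) ≤ 9 * (i * μ) := by zify at e2 e3; linarith
        have f3 : (0 : ℤ) ≤ 5 * C - 14 * i + 40 := by zify at h37; linarith
        have f4 : (0 : ℤ) ≤ 9 * (q + 1) := by positivity
        have f5 : ((C : ℤ) - 19 * i - 9) * (5 * C - 14 * i + 40) ≤ 9 * (q + 1) * (9 * (i * μ)) :=
          mul_le_mul f1 f2 f3 f4
        have f6 : 81 * (C : ℤ) ^ 2 ≤ 40 * (((C : ℤ) - 19 * i - 9) * (5 * C - 14 * i + 40)) := by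
          zify at h37 h5 hi
          nlinarith [mul_nonneg (sub_nonneg.2 h37) (sub_nonneg.2 h37),
            mul_nonneg (sub_nonneg.2 h37) (sub_nonneg.2 h5),
            mul_nonneg (sub_nonneg.2 hi) (sub_nonneg.2 h37),
            mul_nonneg (sub_nonneg.2 h5) (sub_nonneg.2 h5)]
        nlinarith
      exact_mod_cast e4
  have hj : j ≤ (q + 1) * μ := by
    have : 40 * i * j ≤ 40 * i * ((q + 1) * μ) := h.trans key
    exact Nat.le_of_mul_le_mul_left this (by positivity)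
  have hμ1 : 1 ≤ μ := by
    rcases Nat.eq_zero_or_pos μ with h0 | h0
    · rw [h0] at hj
      omega
    · exact h0
  refine ⟨2 * i + 1 + q, μ, hμ1, ?_, by omega, by omega, by omega⟩
  have : (j - 1) / μ ≤ q := by
    rw [← Nat.lt_succ_iff]
    refine (Nat.div_lt_iff_lt_mul hμ1).2 ?_
    have : q.succ * μ = (q + 1) * μ := rfl
    omega
  omega

end H61L
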