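import Pool.Agent.Lib.H61L.Base

/-! # Chunk S2 of board h61l: few vertices of `T` see a connected set outside. -/

open Classical H47G

namespace H61L

variable {V : Type} [Fintype V] {G : SimpleGraph V} {r : ℕ} {S₁ S₂ T : Finset V}

/-- If `adjT G T Q` is empty there is nothing to prove.  Otherwise, for each `σ ∈ S₂`,
`H47G.first_hit` (with `P = T`, `B = adjT G T Q`) gives a connected `g σ ⊆ T` with `σ ∈ g σ` and
`g σ ∩ adjT G T Q = {b σ}`; choose `q σ ∈ Q` adjacent to `b σ`.  The set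
`T' = Q ∪ S₂.biUnion (fun σ ↦ insert (q σ) (g σ))` is connected (`Conn.biUnion`, `Conn.insert`),
contains `S₂` and avoids `S₁`, so `|T| ≤ |T'|` by `Setup.min`.  But `T' = Q ∪ S₂.biUnion g`, and
`S₂.biUnion g ⊆ (T \ adjT G T Q) ∪ S₂.image b`, so
`|T'| ≤ |Q| + |T| - |adjT G T Q| + |S₂|`. -/
theorem card_adjT_le (hS : Setup G r S₁ S₂ T) {Q : Finset V} (hQ : Conn G Q)
    (hn : Q.Nonempty) (hd : Disjoint Q (T ∪ S₁)) :
    (adjT G T Q).card ≤ S₂.card + Q.card := by
  rcases (adjT G T Q).eq_empty_or_nonempty with he | he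
  · rw [he, Finset.card_empty]
    exact Nat.zero_le _
  have hne : Nonempty V := ⟨hn.choose⟩
  have hsub : adjT G T Q ⊆ T := Finset.filter_subset _ _
  have hB : (T ∩ adjT G T Q).Nonempty := by
    rwa [Finset.inter_eq_right.2 hsub]
  have hex : ∀ σ, σ ∈ S₂ → ∃ (g : Finset V) (b q : V), g ⊆ T ∧ σ ∈ g ∧ Conn G g ∧
      g ∩ adjT G T Q = {b} ∧ q ∈ Q ∧ G.Adj q b := by
    intro σ hσ
    obtain ⟨g, h1, h2, h3, b, h4⟩ := first_hit hS.cT (hS.sT hσ) hB
    have hb : b ∈ adjT G T Q := by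
      have h5 : b ∈ g ∩ adjT G T Q := by rw [h4]; exact Finset.mem_singleton_self b
      exact (Finset.mem_inter.1 h5).2
    obtain ⟨_, q, hq, hqb⟩ := mem_adjT.1 hb
    exact ⟨g, b, q, h1, h2, h3, h4, hq, hqb⟩
  choose! g b q h1 h2 h3 h4 h5 h6 using hex
  have hbg : ∀ σ ∈ S₂, b σ ∈ g σ := by
    intro σ hσ
    have h7 : b σ ∈ g σ ∩ adjT G T Q := by rw [h4 σ hσ]; exact Finset.mem_singleton_self _
    exact (Finset.mem_inter.1 h7).1
  have hconn : Conn G (Q ∪ S₂.biUnion fun σ ↦ insert (q σ) (g σ)) := by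
    refine hQ.biUnion S₂ (fun σ ↦ insert (q σ) (g σ)) ?_ ?_
    · intro σ hσ
      exact (h3 σ hσ).insert (hbg σ hσ) (h6 σ hσ).symm
    · intro σ hσ
      exact ⟨q σ, Finset.mem_inter.2 ⟨Finset.mem_insert_self _ _, h5 σ hσ⟩⟩
  have hS2 : S₂ ⊆ Q ∪ S₂.biUnion fun σ ↦ insert (q σ) (g σ) := by
    intro σ hσ
    exact Finset.mem_union_right _ (Finset.mem_biUnion.2
      ⟨σ, hσ, Finset.mem_insert_of_mem (h2 σ hσ)⟩)
  have hdQ : ∀ x ∈ Q, x ∉ S₁ := fun x hx hx' ↦
    Finset.disjoint_left.1 hd hx (Finset.mem_union_right _ hx')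
  have hS1 : Disjoint (Q ∪ S₂.biUnion fun σ ↦ insert (q σ) (g σ)) S₁ := by
    rw [Finset.disjoint_left]
    intro x hx
    rcases Finset.mem_union.1 hx with hx | hx
    · exact hdQ x hx
    · obtain ⟨σ, hσ, hx⟩ := Finset.mem_biUnion.1 hx
      rcases Finset.mem_insert.1 hx with rfl | hx
      · exact hdQ _ (h5 σ hσ)
      · exact fun hx' ↦ Finset.disjoint_left.1 hS.dT (h1 σ hσ hx) hx'
  have hmin := hS.min _ hS2 hS1 hconn
  have hle : (Q ∪ S₂.biUnion fun σ ↦ insert (q σ) (g σ)) ⊆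
      Q ∪ ((T \ adjT G T Q) ∪ S₂.image b) := by
    intro x hx
    rcases Finset.mem_union.1 hx with hx | hx
    · exact Finset.mem_union_left _ hx
    · obtain ⟨σ, hσ, hx⟩ := Finset.mem_biUnion.1 hx
      rcases Finset.mem_insert.1 hx with rfl | hx
      · exact Finset.mem_union_left _ (h5 σ hσ)
      · refine Finset.mem_union_right _ ?_
        by_cases hxa : x ∈ adjT G T Q
        · refine Finset.mem_union_right _ (Finset.mem_image.2 ⟨σ, hσ, ?_⟩)
          have h7 : x ∈ g σ ∩ adjT G T Q := Finset.mem_inter.2 ⟨hx, hxa⟩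
          rw [h4 σ hσ, Finset.mem_singleton] at h7
          exact h7.symm
        · exact Finset.mem_union_left _ (Finset.mem_sdiff.2 ⟨h1 σ hσ hx, hxa⟩)
  have c1 := Finset.card_le_card hle
  have c2 := Finset.card_union_le Q ((T \ adjT G T Q) ∪ S₂.image b)
  have c3 := Finset.card_union_le (T \ adjT G T Q) (S₂.image b)
  have c4 : (S₂.image b).card ≤ S₂.card := Finset.card_image_le
  have c5 : (T \ adjT G T Q).card = T.card - (adjT G T Q).card :=
    Finset.card_sdiff_of_subset hsub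
  have c6 := Finset.card_le_card hsub
  omega

end H61L
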