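import Pool.Agent.Lib.H61L.S2

/-! # Chunk S4 of board h61l: the region `B`. -/

open Classical H47G

namespace H61L

variable {V : Type}

/-- Take a nonempty `B ⊆ Y` with `|nb G Y B| ≤ 2k` of least cardinality (`Y` itself is a
candidate, `nb G Y Y = ∅`).  `min`: a smaller nonempty set is not a candidate.  `conn`: if `A ⊆ B`
is nonempty, `A ≠ B` and there is no edge from `A` to `B \ A`, then `nb G Y A ⊆ nb G Y B`, so `A`
is a smaller candidate. -/
theorem exists_region (G : SimpleGraph V) {Y : Finset V} (hY : Y.Nonempty) (k : ℕ) :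
    ∃ B, Region G Y B k := by
  set F : Finset (Finset V) := Y.powerset.filter fun B ↦ B.Nonempty ∧ (nb G Y B).card ≤ 2 * k
    with hF
  have hne : F.Nonempty := by
    refine ⟨Y, ?_⟩
    rw [hF, Finset.mem_filter, Finset.mem_powerset]
    refine ⟨subset_rfl, hY, ?_⟩
    have h0 : nb G Y Y = ∅ := by
      rw [Finset.eq_empty_iff_forall_notMem]
      intro y hy
      obtain ⟨h1, h2, _⟩ := mem_nb.1 hy
      exact h2 h1
    rw [h0, Finset.card_empty]
    exact Nat.zero_le _
  obtain ⟨B, hB, hmin⟩ := Finset.exists_min_image F Finset.card hne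
  rw [hF, Finset.mem_filter, Finset.mem_powerset] at hB
  obtain ⟨hBY, hBn, hBb⟩ := hB
  have hmin' : ∀ W ⊆ B, W.Nonempty → W ≠ B → 2 * k < (nb G Y W).card := by
    intro W hW hWn hWB
    by_contra hle
    push Not at hle
    have h1 := hmin W (by
      rw [hF, Finset.mem_filter, Finset.mem_powerset]
      exact ⟨hW.trans hBY, hWn, hle⟩)
    exact hWB (Finset.eq_of_subset_of_card_le hW h1)
  refine ⟨B, hBY, hBn, ?_, hBb, hmin'⟩
  intro A hA hAn hAB
  by_contra hno
  push Not at hno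
  have hsub : nb G Y A ⊆ nb G Y B := by
    intro y hy
    obtain ⟨h1, h2, a, ha, hay⟩ := mem_nb.1 hy
    refine mem_nb.2 ⟨h1, ?_, a, hA ha, hay⟩
    intro hyB
    exact hno a ha y hyB h2 hay
  have h3 := hmin' A hA hAn hAB
  have h4 := Finset.card_le_card hsub
  omega

/-- For `b ∈ B`: `nb G Y {b} ⊆ (B \ {b}) ∪ nb G Y B`. -/
theorem Region.card_ge {G : SimpleGraph V} {Y B : Finset V} {k δ : ℕ} (hB : Region G Y B k)
    (hδ : ∀ y ∈ Y, δ ≤ (nb G Y {y}).card) : δ + 1 ≤ B.card + 2 * k := by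
  obtain ⟨b, hb⟩ := hB.ne
  have h1 := hδ b (hB.sub hb)
  have h2 : nb G Y {b} ⊆ (B.erase b) ∪ nb G Y B := by
    intro y hy
    obtain ⟨h3, h4, a, ha, hay⟩ := mem_nb.1 hy
    rw [Finset.mem_singleton] at h4 ha
    subst ha
    by_cases hyB : y ∈ B
    · exact Finset.mem_union_left _ (Finset.mem_erase.2 ⟨h4, hyB⟩)
    · exact Finset.mem_union_right _ (mem_nb.2 ⟨h3, hyB, a, hb, hay⟩)
  have h3 := (Finset.card_le_card h2).trans (Finset.card_union_le _ _)
  have h4 := Finset.card_erase_of_mem hb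
  have h5 := Finset.card_pos.2 ⟨b, hb⟩
  have h6 := hB.bd
  omega

variable [Fintype V] {G : SimpleGraph V} {r : ℕ} {S₁ S₂ T : Finset V}

/-- A vertex outside `T ∪ S₁` has many neighbours outside `T ∪ S₁`: all neighbours of `y` are in
`nb G Y {y}`, in `adjT G T {y}` (at most `|S₂| + 1`, by `card_adjT_le`) or in `S₁`; use
`RConn.degree`. -/
theorem Setup.degree (hS : Setup G r S₁ S₂ T) {y : V}
    (hy : y ∈ (Finset.univ : Finset V) \ (T ∪ S₁)) :
    r ≤ (nb G (Finset.univ \ (T ∪ S₁)) {y}).card + (S₂.card + 1) + S₁.card := by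
  have hd : Disjoint ({y} : Finset V) (T ∪ S₁) := by
    rw [Finset.disjoint_singleton_left]
    exact (Finset.mem_sdiff.1 hy).2
  have h1 := card_adjT_le hS (conn_singleton y) (Finset.singleton_nonempty y) hd
  rw [Finset.card_singleton] at h1
  have h2 := hS.conn.degree y
  have h3 : nb G Finset.univ {y} ⊆
      (nb G (Finset.univ \ (T ∪ S₁)) {y} ∪ adjT G T {y}) ∪ S₁ := by
    intro z hz
    obtain ⟨_, h5, a, ha, haz⟩ := mem_nb.1 hz
    by_cases hzS : z ∈ S₁
    · exact Finset.mem_union_right _ hzS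
    · refine Finset.mem_union_left _ ?_
      by_cases hzT : z ∈ T
      · exact Finset.mem_union_right _ (mem_adjT.2 ⟨hzT, a, ha, haz⟩)
      · refine Finset.mem_union_left _ (mem_nb.2 ⟨?_, h5, a, ha, haz⟩)
        refine Finset.mem_sdiff.2 ⟨Finset.mem_univ _, fun h ↦ ?_⟩
        rcases Finset.mem_union.1 h with h | h
        · exact hzT h
        · exact hzS h
  have h4 := Finset.card_le_card h3
  have h5 := Finset.card_union_le (nb G (Finset.univ \ (T ∪ S₁)) {y} ∪ adjT G T {y}) S₁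
  have h6 := Finset.card_union_le (nb G (Finset.univ \ (T ∪ S₁)) {y}) (adjT G T {y})
  omega

end H61L
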