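import Pool.Agent.Lib.H61L.S4

/-! # Chunk S5a of board h61l: second massed condition for the region. -/

open Classical H47G

namespace H61L

variable {V : Type} {G : SimpleGraph V}

private theorem s5a_P_le (S W : Finset V) :
    (P G S W).card + W.card ≤ W.card * W.card + 2 * (W.card * (nb G S W).card) := by
  have hsub : P G S W ⊆ W.offDiag ∪ ((W ×ˢ nb G S W) ∪ (nb G S W ×ˢ W)) := by
    rintro ⟨a, b⟩ hq
    obtain ⟨h1, h2, h3, h4⟩ := mem_P.1 hq
    simp only at h1 h2 h3 h4
    by_cases ha : a ∈ W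
    · by_cases hb : b ∈ W
      · exact Finset.mem_union_left _ (Finset.mem_offDiag.2 ⟨ha, hb, h3.ne⟩)
      · exact Finset.mem_union_right _ (Finset.mem_union_left _
          (Finset.mem_product.2 ⟨ha, mem_nb.2 ⟨h2, hb, a, ha, h3⟩⟩))
    · have hb : b ∈ W := h4.resolve_left ha
      exact Finset.mem_union_right _ (Finset.mem_union_right _
          (Finset.mem_product.2 ⟨mem_nb.2 ⟨h1, ha, b, hb, h3.symm⟩, hb⟩))
  have h1 := (Finset.card_le_card hsub).trans (Finset.card_union_le _ _)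
  have h2 := Finset.card_union_le (W ×ˢ nb G S W) (nb G S W ×ˢ W)
  rw [Finset.card_product, Finset.card_product] at h2
  rw [Finset.offDiag_card] at h1
  have h3 : (nb G S W).card * W.card = W.card * (nb G S W).card := mul_comm _ _
  have h4 : W.card * W.card - W.card + W.card = W.card * W.card :=
    Nat.sub_add_cancel (Nat.le_mul_self _)
  omega

/-- Second condition of `Massed (2 * k)`: put `S = B ∪ nb G Y B`, `N = nb G Y B`.
Let `W ⊆ S \ X` with `|nb G S W| < |X| ≤ k`.

* If `W ∩ B = ∅` then `W ⊆ N`, so `|W| ≤ 2k`, and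
`|P G S W| ≤ |W| (|W| - 1) + 2 |W| |nb G S W| ≤ |W| (2k - 1 + 2 (k - 1)) ≤ 4k |W|`.
* If `W₁ = W ∩ B ≠ ∅`: choose `z ∈ X \ nb G S W` (it exists by cardinality; `z ∉ W` since
`W ⊆ S \ X`) and put `W₂ = B \ (W ∪ nb G S W) ∋ z`.  `W₁` and `W₂` are nonempty, proper subsets
of `B`, so `2k < |nb G Y W₁|` and `2k < |nb G Y W₂|`.  But `nb G Y W₁ ⊆ (N ∩ W) ∪ nb G S W` and
`nb G Y W₂ ⊆ (N \ W) ∪ nb G S W`, so the sum is at most `|N| + 2 |nb G S W| ≤ 2k + 2 (k - 1)`,
a contradiction. -/
theorem region_m2 {Y B X W : Finset V} {k : ℕ} (hB : Region G Y B k) (hX : X ⊆ B)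
    (hc : X.card ≤ k) (hW : W ⊆ (B ∪ nb G Y B) \ X)
    (hlt : (nb G (B ∪ nb G Y B) W).card < X.card) :
    (P G (B ∪ nb G Y B) W).card ≤ 2 * (2 * k) * W.card := by
  set N := nb G Y B with hN
  set S := B ∪ N with hS
  have hWS : W ⊆ S := hW.trans Finset.sdiff_subset
  have hbd : N.card ≤ 2 * k := hB.bd
  by_cases hne : (W ∩ B).Nonempty
  · exfalso
    obtain ⟨z, hzX, hznb⟩ : ∃ z ∈ X, z ∉ nb G S W := by
      by_contra hcon
      push Not at hcon
      exact absurd (Finset.card_le_card (show X ⊆ nb G S W from hcon)) (by omega)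
    have hzB : z ∈ B := hX hzX
    have hzW : z ∉ W := fun h ↦ (Finset.mem_sdiff.1 (hW h)).2 hzX
    have hm1 : 2 * k < (nb G Y (W ∩ B)).card := by
      refine hB.min _ Finset.inter_subset_right hne ?_
      intro h
      exact hzW (Finset.mem_inter.1 (by rw [h]; exact hzB : z ∈ W ∩ B)).1
    have hm2 : 2 * k < (nb G Y (B \ (W ∪ nb G S W))).card := by
      refine hB.min _ Finset.sdiff_subset ⟨z, ?_⟩ ?_
      · refine Finset.mem_sdiff.2 ⟨hzB, ?_⟩
        rw [Finset.mem_union]
        rintro (h | h)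
        · exact hzW h
        · exact hznb h
      · intro h
        obtain ⟨x, hx⟩ := hne
        obtain ⟨hx1, hx2⟩ := Finset.mem_inter.1 hx
        have h3 : x ∈ B \ (W ∪ nb G S W) := by rw [h]; exact hx2
        exact (Finset.mem_sdiff.1 h3).2 (Finset.mem_union_left _ hx1)
    have hs1 : nb G Y (W ∩ B) ⊆ (N ∩ W) ∪ nb G S W := by
      intro y hy
      obtain ⟨hyY, hyn, w, hw, hadj⟩ := mem_nb.1 hy
      obtain ⟨hwW, hwB⟩ := Finset.mem_inter.1 hw
      by_cases hyW : y ∈ W
      · have hyB : y ∉ B := fun h ↦ hyn (Finset.mem_inter.2 ⟨hyW, h⟩)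
        exact Finset.mem_union_left _ (Finset.mem_inter.2 ⟨mem_nb.2 ⟨hyY, hyB, w, hwB, hadj⟩, hyW⟩)
      · refine Finset.mem_union_right _ (mem_nb.2 ⟨?_, hyW, w, hwW, hadj⟩)
        by_cases hyB : y ∈ B
        · exact Finset.mem_union_left _ hyB
        · exact Finset.mem_union_right _ (mem_nb.2 ⟨hyY, hyB, w, hwB, hadj⟩)
    have hs2 : nb G Y (B \ (W ∪ nb G S W)) ⊆ (N \ W) ∪ nb G S W := by
      intro y hy
      obtain ⟨hyY, hyn, w, hw, hadj⟩ := mem_nb.1 hy
      obtain ⟨hwB, hwn⟩ := Finset.mem_sdiff.1 hw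
      rw [Finset.mem_union, not_or] at hwn
      have hyW : y ∉ W := by
        intro h
        exact hwn.2 (mem_nb.2 ⟨Finset.mem_union_left _ hwB, hwn.1, y, h, hadj.symm⟩)
      by_cases hyB : y ∈ B
      · refine Finset.mem_union_right _ ?_
        by_contra h
        exact hyn (Finset.mem_sdiff.2 ⟨hyB, by rw [Finset.mem_union, not_or]; exact ⟨hyW, h⟩⟩)
      · exact Finset.mem_union_left _ (Finset.mem_sdiff.2
          ⟨mem_nb.2 ⟨hyY, hyB, w, hwB, hadj⟩, hyW⟩)
    have c1 := (Finset.card_le_card hs1).trans (Finset.card_union_le _ _)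
    have c2 := (Finset.card_le_card hs2).trans (Finset.card_union_le _ _)
    have c3 : (N ∩ W).card + (N \ W).card = N.card := Finset.card_inter_add_card_sdiff N W
    omega
  · have hWN : W ⊆ N := by
      intro w hw
      rcases Finset.mem_union.1 (hWS hw) with h | h
      · exact absurd ⟨w, Finset.mem_inter.2 ⟨hw, h⟩⟩ hne
      · exact h
    have hWc : W.card ≤ 2 * k := (Finset.card_le_card hWN).trans hbd
    have h1 := s5a_P_le (G := G) S W
    have h2 : W.card * W.card ≤ W.card * (2 * k) := Nat.mul_le_mul_left _ hWc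
    have h3 : W.card * (nb G S W).card ≤ W.card * k := Nat.mul_le_mul_left _ (by omega)
    have h4 : 2 * (2 * k) * W.card = W.card * (2 * k) + 2 * (W.card * k) := by ring
    omega

end H61L
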