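import Pool.Agent.Lib.H61L.S2

/-! # Chunk S6b of board h61l: many fat vertices (the thin vertices are not fat). -/

open Classical H47G

namespace H61L

variable {V : Type} [Fintype V] {G : SimpleGraph V} {r : ℕ} {S₁ S₂ T : Finset V}

/-- Neighbours of `b ∈ B`. -/
private theorem card_nb_le {B : Finset V} {k : ℕ}
    (hB : Region G (Finset.univ \ (T ∪ S₁)) B k) {b : V} (hb : b ∈ B) :
    (nb G Finset.univ {b}).card + 1 ≤ (T.filter fun t ↦ G.Adj b t).card +
      (B.card + 2 * k + S₁.card) := by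
  have hsub : insert b (nb G Finset.univ {b}) ⊆ (T.filter fun t ↦ G.Adj b t) ∪
      (B ∪ nb G (Finset.univ \ (T ∪ S₁)) B ∪ S₁) := by
    intro y hy
    rcases Finset.mem_insert.1 hy with rfl | hy
    · exact Finset.mem_union_right _ (Finset.mem_union_left _ (Finset.mem_union_left _ hb))
    · obtain ⟨-, -, w, hw, hwy⟩ := mem_nb.1 hy
      rw [Finset.mem_singleton] at hw
      subst hw
      by_cases hT : y ∈ T
      · exact Finset.mem_union_left _ (Finset.mem_filter.2 ⟨hT, hwy⟩)
      · refine Finset.mem_union_right _ ?_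
        by_cases hS : y ∈ S₁
        · exact Finset.mem_union_right _ hS
        · refine Finset.mem_union_left _ ?_
          by_cases hyB : y ∈ B
          · exact Finset.mem_union_left _ hyB
          · refine Finset.mem_union_right _ (mem_nb.2 ⟨?_, hyB, w, hb, hwy⟩)
            simp [hT, hS]
  have h1 := Finset.card_le_card hsub
  rw [Finset.card_insert_of_notMem (by
    intro h
    exact (mem_nb.1 h).2.1 (Finset.mem_singleton_self b))] at h1
  have h2 := Finset.card_union_le (T.filter fun t ↦ G.Adj b t)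
    (B ∪ nb G (Finset.univ \ (T ∪ S₁)) B ∪ S₁)
  have h3 := Finset.card_union_le (B ∪ nb G (Finset.univ \ (T ∪ S₁)) B) S₁
  have h4 := Finset.card_union_le B (nb G (Finset.univ \ (T ∪ S₁)) B)
  have h5 := hB.bd
  omega

/-- Count the pairs `(b, y)` with `b ∈ B` and `y` a neighbour of `b`. -/
theorem fat_bound' (hS : Setup G r S₁ S₂ T) {B : Finset V} {k : ℕ} (hk : 1 ≤ k)
    (hB : Region G (Finset.univ \ (T ∪ S₁)) B k) :
    B.card * (r + 1) + (k - 1) * (fat G T B k).card ≤
      B.card * (fat G T B k).card + (k - 1) * (S₂.card + B.card) +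
      B.card * (B.card + 2 * k + S₁.card) := by
  have hfa : fat G T B k ⊆ adjT G T B := by
    intro t ht
    obtain ⟨h1, h2⟩ := mem_fat.1 ht
    have h3 : (B.filter fun b ↦ G.Adj t b).Nonempty := by
      rw [← Finset.card_pos]
      omega
    obtain ⟨b, hb⟩ := h3
    obtain ⟨hb1, hb2⟩ := Finset.mem_filter.1 hb
    exact mem_adjT.2 ⟨h1, b, hb1, hb2.symm⟩
  have hadj : (adjT G T B).card ≤ S₂.card + B.card := by
    refine card_adjT_le hS hB.conn hB.ne ?_
    rw [Finset.disjoint_left]
    intro x hx hx'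
    exact (Finset.mem_sdiff.1 (hB.sub hx)).2 hx'
  have hsum1 : B.card * (r + 1) ≤ ∑ b ∈ B, (T.filter fun t ↦ G.Adj b t).card +
      B.card * (B.card + 2 * k + S₁.card) := by
    have : B.card • (r + 1) ≤ ∑ b ∈ B, ((T.filter fun t ↦ G.Adj b t).card +
        (B.card + 2 * k + S₁.card)) := by
      refine Finset.card_nsmul_le_sum _ _ _ fun b hb ↦ ?_
      have h1 := card_nb_le hB hb
      have h2 := hS.conn.degree b
      omega
    rw [smul_eq_mul] at this
    have h3 : ∑ b ∈ B, ((T.filter fun t ↦ G.Adj b t).card + (B.card + 2 * k + S₁.card)) =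
        ∑ b ∈ B, (T.filter fun t ↦ G.Adj b t).card + B.card * (B.card + 2 * k + S₁.card) := by
      rw [Finset.sum_add_distrib, Finset.sum_const, smul_eq_mul]
    rw [h3] at this
    exact this
  have hswap : ∑ b ∈ B, (T.filter fun t ↦ G.Adj b t).card =
      ∑ t ∈ T, (B.filter fun b ↦ G.Adj t b).card := by
    have h1 : ∑ b ∈ B, (T.filter fun t ↦ G.Adj b t).card =
        ∑ t ∈ T, (B.filter fun b ↦ G.Adj b t).card := by
      simp_rw [Finset.card_filter]
      exact Finset.sum_comm
    rw [h1]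
    refine Finset.sum_congr rfl fun t _ ↦ ?_
    congr 1
    ext b
    simp [G.adj_comm]
  have hT : ∑ t ∈ T, (B.filter fun b ↦ G.Adj t b).card =
      ∑ t ∈ adjT G T B, (B.filter fun b ↦ G.Adj t b).card := by
    symm
    refine Finset.sum_subset (fun t ht ↦ (mem_adjT.1 ht).1) fun t ht hn ↦ ?_
    rw [Finset.card_eq_zero, Finset.filter_eq_empty_iff]
    intro b hb hab
    exact hn (mem_adjT.2 ⟨ht, b, hb, hab.symm⟩)
  have hsplit : ∑ t ∈ adjT G T B, (B.filter fun b ↦ G.Adj t b).card =
      ∑ t ∈ adjT G T B \ fat G T B k, (B.filter fun b ↦ G.Adj t b).card +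
      ∑ t ∈ fat G T B k, (B.filter fun b ↦ G.Adj t b).card :=
    (Finset.sum_sdiff hfa).symm
  have h1 : ∑ t ∈ fat G T B k, (B.filter fun b ↦ G.Adj t b).card ≤
      (fat G T B k).card * B.card := by
    rw [← smul_eq_mul]
    exact Finset.sum_le_card_nsmul _ _ _ fun t _ ↦ Finset.card_filter_le _ _
  have h2 : ∑ t ∈ adjT G T B \ fat G T B k, (B.filter fun b ↦ G.Adj t b).card ≤
      (adjT G T B \ fat G T B k).card * (k - 1) := by
    rw [← smul_eq_mul]
    refine Finset.sum_le_card_nsmul _ _ _ fun t ht ↦ ?_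
    obtain ⟨h3, h4⟩ := Finset.mem_sdiff.1 ht
    by_contra h5
    exact h4 (mem_fat.2 ⟨(mem_adjT.1 h3).1, by omega⟩)
  have h3 : (adjT G T B \ fat G T B k).card + (fat G T B k).card = (adjT G T B).card :=
    Finset.card_sdiff_add_card_eq_card hfa
  have h4 : (k - 1) * (adjT G T B).card ≤ (k - 1) * (S₂.card + B.card) :=
    Nat.mul_le_mul_left _ hadj
  have h5 : (adjT G T B \ fat G T B k).card * (k - 1) + (k - 1) * (fat G T B k).card =
      (k - 1) * (adjT G T B).card := by
    rw [← h3]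
    ring
  have h6 : (fat G T B k).card * B.card = B.card * (fat G T B k).card := Nat.mul_comm _ _
  omega

/-- If `B` is large enough, the fat vertices and `B` together are many. -/
theorem fat_large (hS : Setup G r S₁ S₂ T) {B : Finset V} {k M : ℕ} (hk : 1 ≤ k)
    (hB : Region G (Finset.univ \ (T ∪ S₁)) B k) (hkB : k ≤ B.card) (hM : S₂.card + 1 ≤ M)
    (h : M + 4 * k + S₁.card ≤ r + 3) : M ≤ (fat G T B k).card + B.card := by
  by_contra hlt
  have h0 := fat_bound' hS hk hB
  obtain ⟨e, he⟩ : ∃ e, k = e + 1 := ⟨k - 1, by omega⟩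
  obtain ⟨m, hm⟩ : ∃ m, M = S₂.card + 1 + m := ⟨M - (S₂.card + 1), by omega⟩
  obtain ⟨c, hc⟩ : ∃ c, B.card = e + 1 + c := ⟨B.card - (e + 1), by omega⟩
  obtain ⟨d, hd⟩ : ∃ d, r + 3 = M + 4 * k + S₁.card + d := ⟨r + 3 - (M + 4 * k + S₁.card), by omega⟩
  obtain ⟨g, hg⟩ : ∃ g, (fat G T B k).card + B.card + 1 + g = M :=
    ⟨M - ((fat G T B k).card + B.card + 1), by omega⟩
  set F := (fat G T B k).card with hF
  set b := B.card with hb
  set s₁ := S₁.card with hs1
  set s₂ := S₂.card with hs2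
  have hk1 : k - 1 = e := by omega
  rw [hk1] at h0
  zify at *
  nlinarith
end H61L
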